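import Pool.Agent.Q326.PV.Plane

/-!
# The dual graph of the Voronoi tessellation of a locally finite set is connected
-/

namespace Pool.Agent.Q326.PV

open UpperHalfPlane Set Filter Topology

/-- Every bounded set contains finitely many points of `S`. -/
def LocFin (S : Set ℍ) : Prop := ∀ A : Set ℍ, Bornology.IsBounded A → (S ∩ A).Finite

theorem LocFin.countable {S : Set ℍ} (hS : LocFin S) : S.Countable := by
  have h : S = ⋃ n : ℕ, S ∩ Metric.ball UpperHalfPlane.I n := by
    ext z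
    simp only [mem_iUnion, mem_inter_iff, Metric.mem_ball, exists_and_left]
    refine ⟨fun hz => ⟨hz, exists_nat_gt _⟩, fun hz => hz.1⟩
  rw [h]
  exact countable_iUnion fun n => (hS _ Metric.isBounded_ball).countable

theorem gap {S : Set ℍ} (hS : LocFin S) (z : ℍ) (ρ : ℝ) (Q : Set ℍ) (hQ : Q ⊆ S)
    (h : ∀ q ∈ Q, ρ < dist z q) : ∃ η > 0, ∀ q ∈ Q, ρ + η ≤ dist z q := by
  set F := Q ∩ Metric.closedBall z (ρ + 1) with hF
  have hfin : F.Finite := (hS _ Metric.isBounded_closedBall).subset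
    (inter_subset_inter_left _ hQ)
  rcases F.eq_empty_or_nonempty with h0 | h0
  · refine ⟨1, one_pos, fun q hq => ?_⟩
    by_contra hlt
    have : q ∈ F := ⟨hq, by rw [Metric.mem_closedBall, dist_comm]; linarith⟩
    rw [h0] at this
    exact this
  · obtain ⟨a, ha, hmin⟩ := exists_min_image F (fun q => dist z q) hfin h0
    refine ⟨min 1 (dist z a - ρ), lt_min one_pos (by have := h a ha.1; linarith),
      fun q hq => ?_⟩
    by_cases hq' : q ∈ F
    · have := hmin q hq'
      have := min_le_right 1 (dist z a - ρ)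
      linarith
    · have h1 : ρ + 1 < dist z q := by
        by_contra hlt
        exact hq' ⟨hq, by rw [Metric.mem_closedBall, dist_comm]; linarith⟩
      have := min_le_left 1 (dist z a - ρ)
      linarith

theorem exists_nearest {S : Set ℍ} (hS : LocFin S) (h0 : S.Nonempty) (z : ℍ) :
    ∃ p ∈ S, z ∈ cell S p := by
  obtain ⟨s, hs⟩ := h0
  have hfin : (S ∩ Metric.closedBall z (dist z s)).Finite := hS _ Metric.isBounded_closedBall
  obtain ⟨a, ha, hmin⟩ := exists_min_image _ (fun q => dist z q) hfin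
    ⟨s, hs, by rw [Metric.mem_closedBall, dist_comm]⟩
  refine ⟨a, ha.1, fun q hq => ?_⟩
  by_cases hq' : dist z q ≤ dist z s
  · exact hmin q ⟨hq, by rw [Metric.mem_closedBall, dist_comm]; exact hq'⟩
  · have := ha.2
    rw [Metric.mem_closedBall, dist_comm] at this
    linarith

theorem exists_near_equidistant (t r r' : ℍ) (h : dist t r = dist t r') {η : ℝ} (hη : 0 < η) :
    ∃ t' : ℍ, t' ≠ t ∧ dist t t' < η ∧ dist t' r = dist t' r' := by
  obtain ⟨d1, d2, hd, hker⟩ : ∃ d1 d2 : ℝ, (d1 ≠ 0 ∨ d2 ≠ 0) ∧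
      (-2 * r.re / r.im + 2 * r'.re / r'.im) * d1 + (1 / r.im - 1 / r'.im) * d2 = 0 := by
    by_cases h0 : (1 / r.im - 1 / r'.im : ℝ) = 0 ∧ (-2 * r.re / r.im + 2 * r'.re / r'.im : ℝ) = 0
    · exact ⟨1, 0, Or.inl one_ne_zero, by rw [h0.1, h0.2]; ring⟩
    · refine ⟨(1 / r.im - 1 / r'.im), -(-2 * r.re / r.im + 2 * r'.re / r'.im), ?_, by ring⟩
      rw [not_and_or] at h0
      rcases h0 with h0 | h0
      · exact Or.inl h0
      · exact Or.inr (neg_ne_zero.2 h0)
  set x : ℝ → ℝ := fun κ => t.re + κ * d1 with hx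
  set b : ℝ → ℝ := fun κ => t.re ^ 2 + t.im ^ 2 + κ * d2 with hb
  set g : ℝ → ℂ := fun κ => ⟨x κ, Real.sqrt (b κ - x κ ^ 2)⟩ with hg
  have hcx : Continuous x := by fun_prop
  have hcb : Continuous b := by fun_prop
  have hcg : Continuous g := by
    have h1 : g = fun κ => ((x κ : ℝ) : ℂ) + ((Real.sqrt (b κ - x κ ^ 2) : ℝ) : ℂ) * Complex.I := by
      funext κ
      apply Complex.ext <;> simp [hg]
    rw [h1]
    fun_prop
  have hg0 : g 0 = (t : ℂ) := by
    apply Complex.ext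
    · simp [hg, hx]
    · simp only [hg, hx, hb, zero_mul, add_zero]
      rw [show t.re ^ 2 + t.im ^ 2 - t.re ^ 2 = t.im ^ 2 by ring, Real.sqrt_sq t.im_pos.le]
      rfl
  have hpos : ∀ᶠ κ in 𝓝 (0 : ℝ), 0 < b κ - x κ ^ 2 := by
    have hcc : Continuous fun κ => b κ - x κ ^ 2 := by fun_prop
    apply hcc.continuousAt.eventually
    apply lt_mem_nhds
    simp only [hb, hx, zero_mul, add_zero]
    have := t.im_pos
    nlinarith
  have hcont : ContinuousAt (fun κ => (ofComplex (g κ) : ℍ)) 0 := by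
    have h1 : ContinuousAt (ofComplex : ℂ → ℍ) (g 0) := by
      apply ofComplex.continuousAt
      rw [hg0]
      exact (isOpenEmbedding_coe.toOpenPartialHomeomorph _).map_source (mem_univ t)
    exact ContinuousAt.comp (f := g) (g := (ofComplex : ℂ → ℍ)) h1 hcg.continuousAt
  have hdist : ∀ᶠ κ in 𝓝 (0 : ℝ), dist t (ofComplex (g κ)) < η := by
    have h1 : ofComplex (g 0) = t := by rw [hg0, ofComplex_apply]
    have h2 := hcont.eventually (Metric.ball_mem_nhds (ofComplex (g 0)) hη)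
    filter_upwards [h2] with κ hκ
    rw [dist_comm]
    rwa [h1] at hκ
  obtain ⟨κ, hκ⟩ := ((hpos.and hdist).filter_mono nhdsWithin_le_nhds |>.and
    self_mem_nhdsWithin : ∀ᶠ κ in 𝓝[≠] (0 : ℝ), _).exists
  obtain ⟨⟨hκ1, hκ2⟩, hκ0⟩ := hκ
  have him : 0 < (g κ).im := by
    simp only [hg]
    exact Real.sqrt_pos.2 hκ1
  have hoc : ofComplex (g κ) = ⟨g κ, him⟩ := ofComplex_apply_of_im_pos him
  have hre : (ofComplex (g κ)).re = x κ := by rw [hoc]; rfl
  have hsq : (ofComplex (g κ)).re ^ 2 + (ofComplex (g κ)).im ^ 2 = b κ := by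
    rw [hoc]
    change x κ ^ 2 + (Real.sqrt (b κ - x κ ^ 2)) ^ 2 = b κ
    rw [Real.sq_sqrt hκ1.le]
    ring
  refine ⟨ofComplex (g κ), ?_, hκ2, ?_⟩
  · intro heq
    have h1 : x κ = t.re := by rw [← hre, heq]
    have h2 : b κ = t.re ^ 2 + t.im ^ 2 := by rw [← hsq, heq]
    simp only [hx, hb] at h1 h2
    have hκ0' : κ ≠ 0 := hκ0
    rcases hd with hd | hd
    · exact hd ((mul_eq_zero.1 (by linarith : κ * d1 = 0)).resolve_left hκ0')
    · exact hd ((mul_eq_zero.1 (by linarith : κ * d2 = 0)).resolve_left hκ0')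
  · rw [dist_eq_iff] at h ⊢
    unfold aff at h ⊢
    rw [hsq, hre]
    simp only [hx, hb]
    have h1 := r.im_pos
    have h2 := r'.im_pos
    have e1 : ∀ v : ℍ, (t.re ^ 2 + t.im ^ 2 + κ * d2 - 2 * (t.re + κ * d1) * v.re
        + (v.re ^ 2 + v.im ^ 2)) / v.im = (t.re ^ 2 + t.im ^ 2 - 2 * t.re * v.re
        + (v.re ^ 2 + v.im ^ 2)) / v.im + κ * (-2 * v.re / v.im * d1 + 1 / v.im * d2) := by
      intro v
      have := v.im_pos
      field_simp
      ring
    rw [e1, e1, h]
    have h3 : -2 * r.re / r.im * d1 + 1 / r.im * d2 = -2 * r'.re / r'.im * d1 + 1 / r'.im * d2 := by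
      have h4 : -2 * r'.re / r'.im = -(2 * r'.re / r'.im) := by ring
      rw [h4]
      linarith
    rw [h3]

theorem adj_of_two {S : Set ℍ} (hS : LocFin S) {r r' : S} (hne : r ≠ r') {t : ℍ}
    (h : dist t (r : ℍ) = dist t (r' : ℍ))
    (hq : ∀ q ∈ S, q ≠ r → q ≠ r' → dist t (r : ℍ) < dist t q) : (vorGraph S).Adj r r' := by
  obtain ⟨η, hη, hg⟩ := gap hS t (dist t (r : ℍ)) {q | q ∈ S ∧ q ≠ r ∧ q ≠ r'}
    (fun q hq => hq.1) (fun q h' => hq q h'.1 h'.2.1 h'.2.2)
  obtain ⟨t', hne', hd, he⟩ := exists_near_equidistant t r r' h (half_pos hη)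
  have h1 : t ∈ cell S r := by
    intro q hq'
    by_cases hqr : q = r
    · rw [hqr]
    · by_cases hqr' : q = r'
      · rw [hqr', h]
      · exact (hq q hq' hqr hqr').le
  have h1' : t ∈ cell S r' := fun q hq' => h ▸ h1 q hq'
  have h2 : t' ∈ cell S r := by
    intro q hq'
    by_cases hqr : q = r
    · rw [hqr]
    · by_cases hqr' : q = r'
      · rw [hqr', he]
      · have h3 := hg q ⟨hq', hqr, hqr'⟩
        have h4 := dist_triangle t t' q
        have h5 := dist_triangle t' t (r : ℍ)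
        rw [dist_comm t' t] at h5
        linarith
  have h2' : t' ∈ cell S r' := fun q hq' => he ▸ h2 q hq'
  exact ⟨hne, t, t', hne'.symm, subset_inter (seg_subset_cell h1 h2) (seg_subset_cell h1' h2')⟩

/-- The union of the cells of the points of `Q`. -/
def cells (S Q : Set ℍ) : Set ℍ := {z | ∃ r ∈ Q, z ∈ cell S r}

theorem isClosed_cells {S Q : Set ℍ} (hS : LocFin S) (h0 : S.Nonempty) (hQ : Q ⊆ S) :
    IsClosed (cells S Q) := by
  rw [← isOpen_compl_iff, Metric.isOpen_iff]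
  intro z hz
  obtain ⟨p, hp, hzp⟩ := exists_nearest hS h0 z
  obtain ⟨η, hη, hg⟩ := gap hS z (dist z p) Q hQ (by
    intro q hq
    by_contra hlt
    apply hz
    refine ⟨q, hq, fun s hs => ?_⟩
    have := hzp s hs
    linarith)
  refine ⟨η / 2, half_pos hη, fun z' hz' hmem => ?_⟩
  obtain ⟨r, hr, hzr⟩ := hmem
  rw [Metric.mem_ball] at hz'
  have h1 := hg r hr
  have h2 := hzr p hp
  have h3 := dist_triangle z z' r
  have h4 := dist_triangle z' z p
  rw [dist_comm z z'] at h3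
  linarith

/-- The points which lie in three cells. -/
def triples (S : Set ℍ) : Set ℍ :=
  {z | ∃ r : Fin 3 → ℍ, Function.Injective r ∧ (∀ i, r i ∈ S) ∧ ∀ i, z ∈ cell S (r i)}

theorem triples_countable {S : Set ℍ} (hS : LocFin S) : (triples S).Countable := by
  have hc : Countable S := hS.countable.to_subtype
  have h : triples S ⊆ ⋃ r : Fin 3 → S, {z | Function.Injective r ∧ ∀ i, z ∈ cell S (r i)} := by
    rintro z ⟨r, hr, hrS, hz⟩
    refine mem_iUnion.2 ⟨fun i => ⟨r i, hrS i⟩, fun i j hij => hr (congrArg Subtype.val hij), hz⟩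
  refine (countable_iUnion fun r => ?_).mono h
  apply Set.Subsingleton.countable
  rintro z ⟨hr, hz⟩ z' ⟨_, hz'⟩
  refine equidistant_unique (r := fun i => (r i : ℍ)) (fun i j hij => hr (Subtype.ext hij))
    (fun i j => ?_) (fun i j => ?_)
  · exact le_antisymm (hz i _ (r j).2) (hz j _ (r i).2)
  · exact le_antisymm (hz' i _ (r j).2) (hz' j _ (r i).2)

theorem isPreconnected_compl_countable {T : Set ℍ} (hT : T.Countable) : IsPreconnected Tᶜ := by
  set ξ : ℝ × ℝ → ℍ := fun p => ⟨⟨p.1, Real.exp p.2⟩, Real.exp_pos _⟩ with hξ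
  have hcont : Continuous ξ := by
    rw [isEmbedding_coe.continuous_iff]
    have : (UpperHalfPlane.coe ∘ ξ) = fun p : ℝ × ℝ => ((p.1 : ℝ) : ℂ)
        + ((Real.exp p.2 : ℝ) : ℂ) * Complex.I := by
      funext p
      apply Complex.ext <;> simp [hξ, -Complex.ofReal_exp]
    rw [this]
    fun_prop
  have hinj : Function.Injective ξ := by
    intro p q h
    have h1 : (ξ p).re = (ξ q).re := by rw [h]
    have h2 : (ξ p).im = (ξ q).im := by rw [h]
    have h3 : p.1 = q.1 := h1
    have h4 : Real.exp p.2 = Real.exp q.2 := h2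
    exact Prod.ext h3 (Real.exp_injective h4)
  have hsurj : Function.Surjective ξ := by
    intro z
    refine ⟨(z.re, Real.log z.im), ?_⟩
    apply UpperHalfPlane.ext
    apply Complex.ext
    · rfl
    · change Real.exp (Real.log z.im) = z.im
      rw [Real.exp_log z.im_pos]
  have h1 : (ξ ⁻¹' T).Countable := hT.preimage hinj
  have h2 : IsConnected (ξ ⁻¹' T)ᶜ := h1.isConnected_compl_of_one_lt_rank (by
    rw [rank_prod, Module.rank_self, Cardinal.lift_one]
    norm_num)
  have h3 : Tᶜ = ξ '' (ξ ⁻¹' T)ᶜ := by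
    rw [← preimage_compl, image_preimage_eq _ hsurj]
  rw [h3]
  exact h2.isPreconnected.image _ hcont.continuousOn

theorem vorGraph_connected {S : Set ℍ} (hS : LocFin S) (h0 : S.Nonempty) :
    (vorGraph S).Connected := by
  have : Nonempty S := h0.to_subtype
  refine ⟨fun p0 q0 => ?_⟩
  by_contra hnr
  set Q : Set ℍ := {z | ∃ h : z ∈ S, (vorGraph S).Reachable p0 ⟨z, h⟩} with hQ
  set Q' : Set ℍ := {z | ∃ h : z ∈ S, ¬ (vorGraph S).Reachable p0 ⟨z, h⟩} with hQ'
  have hc1 : IsClosed (cells S Q) := isClosed_cells hS h0 fun z hz => hz.1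
  have hc2 : IsClosed (cells S Q') := isClosed_cells hS h0 fun z hz => hz.1
  have hcov : (triples S)ᶜ ⊆ cells S Q ∪ cells S Q' := by
    intro z _
    obtain ⟨p, hp, hz⟩ := exists_nearest hS h0 z
    by_cases h : (vorGraph S).Reachable p0 ⟨p, hp⟩
    · exact Or.inl ⟨p, ⟨hp, h⟩, hz⟩
    · exact Or.inr ⟨p, ⟨hp, h⟩, hz⟩
  have hself : ∀ p : S, (p : ℍ) ∈ cell S p := fun p q _ => by
    rw [dist_self]; exact dist_nonneg
  have hnot : ∀ p : S, (p : ℍ) ∉ triples S := by
    rintro p ⟨r, hr, hrS, hz⟩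
    have h1 : ∀ i, r i = p := by
      intro i
      have := hz i p p.2
      rw [dist_self] at this
      exact (dist_le_zero.1 this).symm
    have : (0 : Fin 3) = 1 := hr (by rw [h1, h1])
    exact absurd this (by decide)
  obtain ⟨t, ht, ht1, ht2⟩ := (isPreconnected_closed_iff.1
    (isPreconnected_compl_countable (triples_countable hS))) _ _ hc1 hc2 hcov
    ⟨p0, hnot p0, ⟨p0, ⟨p0.2, SimpleGraph.Reachable.refl _⟩, hself p0⟩⟩
    ⟨q0, hnot q0, ⟨q0, ⟨q0.2, hnr⟩, hself q0⟩⟩
  obtain ⟨r, ⟨hrS, hr⟩, htr⟩ := ht1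
  obtain ⟨r', ⟨hrS', hr'⟩, htr'⟩ := ht2
  have hne : (⟨r, hrS⟩ : S) ≠ ⟨r', hrS'⟩ := fun h => hr' (h ▸ hr)
  have hne' : r ≠ r' := fun h => hne (Subtype.ext h)
  have hadj : (vorGraph S).Adj ⟨r, hrS⟩ ⟨r', hrS'⟩ := by
    refine adj_of_two hS hne (t := t) (le_antisymm (htr r' hrS') (htr' r hrS)) ?_
    intro q hq hqr hqr'
    refine lt_of_le_of_ne (htr q hq) fun heq => ht ?_
    refine ⟨![r, r', q], ?_, ?_, ?_⟩
    · intro i j hij
      fin_cases i <;> fin_cases j <;> simp_all
    · intro i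
      fin_cases i
      · exact hrS
      · exact hrS'
      · exact hq
    · intro i
      fin_cases i
      · exact htr
      · exact htr'
      · intro s hs
        change dist t q ≤ dist t s
        have h5 : dist t r = dist t q := heq
        rw [← h5]
        exact htr s hs
  exact hr' (hr.trans hadj.reachable)

end Pool.Agent.Q326.PV
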