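import Mathlib

/-!
# Voronoi cells, the dual graph and Poisson processes in the hyperbolic plane
-/

namespace Pool.Agent.Q326.PV

open UpperHalfPlane MeasureTheory ProbabilityTheory
open scoped NNReal

/-- The Voronoi cell of `p` with respect to the set of points `S`: the points of the hyperbolic
plane whose distance to `p` is at most their distance to every point of `S`. -/
def cell (S : Set ℍ) (p : ℍ) : Set ℍ := {z | ∀ q ∈ S, dist z p ≤ dist z q}

/-- The hyperbolic segment between `a` and `b`. -/
def seg (a b : ℍ) : Set ℍ := {c | dist a c + dist c b = dist a b}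

/-- The dual graph of the Voronoi tessellation of `S`: its vertices are the points of `S` (that
is, the cells), and two distinct ones are adjacent when their cells share a segment of positive
length. -/
def vorGraph (S : Set ℍ) : SimpleGraph S where
  Adj p q := p ≠ q ∧ ∃ a b : ℍ, a ≠ b ∧ seg a b ⊆ cell S p ∩ cell S q
  symm := ⟨fun p q ⟨h, a, b, hab, hs⟩ => ⟨h.symm, a, b, hab, by rwa [Set.inter_comm]⟩⟩
  loopless := ⟨fun _ h => h.1 rfl⟩

variable {V : Type*}

/-- A geodesic of the graph `G`: a path whose length is the distance between its ends. -/
def IsGeodesic (G : SimpleGraph V) {x y : V} (p : G.Walk x y) : Prop := p.length = G.dist x y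

/-- The side `p` lies in the closed `δ`-neighbourhood of the union of the sides `q` and `r`. -/
def SideNear (G : SimpleGraph V) (δ : ℝ) {x y z u v w : V} (p : G.Walk x y) (q : G.Walk z u)
    (r : G.Walk v w) : Prop :=
  ∀ a ∈ p.support, ∃ b, (b ∈ q.support ∨ b ∈ r.support) ∧ (G.dist a b : ℝ) ≤ δ

/-- The triangle with sides `p`, `q`, `r` is `δ`-thin: each side lies in the closed
`δ`-neighbourhood of the union of the other two. -/
def IsThin (G : SimpleGraph V) (δ : ℝ) {x y z : V} (p : G.Walk x y) (q : G.Walk y z)
    (r : G.Walk z x) : Prop :=
  SideNear G δ p q r ∧ SideNear G δ q r p ∧ SideNear G δ r p q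

/-- The number of points of `S` in `A`. -/
noncomputable def count (S A : Set ℍ) : ℕ := (S ∩ A).ncard

/-- `X` is a Poisson point process in the hyperbolic plane with intensity `lam` times the
hyperbolic area: a random locally finite set such that the numbers of points in pairwise
disjoint bounded Borel sets are independent Poisson variables, whose means are `lam` times the
areas. -/
structure IsPoissonProcess {Ω : Type*} [MeasurableSpace Ω] (P : Measure Ω) (lam : ℝ≥0)
    (X : Ω → Set ℍ) : Prop where
  /-- the random set is locally finite -/
  locallyFinite : ∀ ω, ∀ A : Set ℍ, Bornology.IsBounded A → (X ω ∩ A).Finite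
  /-- the counts are random variables -/
  measurable : ∀ A : Set ℍ, MeasurableSet A → Bornology.IsBounded A →
    Measurable fun ω => count (X ω) A
  /-- the counts are Poisson variables -/
  law : ∀ A : Set ℍ, MeasurableSet A → Bornology.IsBounded A →
    P.map (fun ω => count (X ω) A) = poissonMeasure (lam * (volume A).toNNReal)
  /-- the counts of disjoint sets are independent -/
  indep : ∀ (ι : Type) [Fintype ι] (A : ι → Set ℍ), (∀ i, MeasurableSet (A i)) →
    (∀ i, Bornology.IsBounded (A i)) → Pairwise (fun i j => Disjoint (A i) (A j)) →
    iIndepFun (fun i ω => count (X ω) (A i)) P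

end Pool.Agent.Q326.PV
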