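import Pool.Agent.Q326.PV.Defs

/-!
# Three geodesics with the same ends and far apart midpoints spoil anchored thinness
-/

namespace Pool.Agent.Q326.PV

variable {V : Type*} {G : SimpleGraph V}

open SimpleGraph

theorem IsGeodesic.split [DecidableEq V] {x y : V} {p : G.Walk x y} (hp : IsGeodesic G p) {b : V}
    (hb : b ∈ p.support) : IsGeodesic G (p.takeUntil b hb) ∧ IsGeodesic G (p.dropUntil b hb) ∧
      G.dist x b + G.dist b y = G.dist x y := by
  have h1 := congrArg Walk.length (p.take_spec hb)
  rw [Walk.length_append] at h1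
  have h2 := dist_le (p.takeUntil b hb)
  have h3 := dist_le (p.dropUntil b hb)
  have h4 : G.dist x y ≤ G.dist x b + G.dist b y := by
    have hr : G.Reachable x b := ⟨p.takeUntil b hb⟩
    exact hr.dist_triangle_left y
  unfold IsGeodesic at *
  refine ⟨?_, ?_, ?_⟩ <;> omega

theorem IsGeodesic.dist_le_abs {x y : V} {p : G.Walk x y} (hp : IsGeodesic G p) {b b' : V}
    (hb : b ∈ p.support) (hb' : b' ∈ p.support) :
    (G.dist b b' : ℝ) ≤ |(G.dist b y : ℝ) - G.dist b' y| := by
  classical
  obtain ⟨h1, h2, h3⟩ := hp.split hb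
  obtain ⟨-, -, h3'⟩ := hp.split hb'
  have hmem : b' ∈ (p.takeUntil b hb).support ∨ b' ∈ (p.dropUntil b hb).support := by
    rw [← Walk.mem_support_append_iff, p.take_spec hb]
    exact hb'
  rcases hmem with h | h
  · obtain ⟨-, -, h4⟩ := h1.split h
    have h5 : (G.dist b b' : ℝ) = G.dist b' y - G.dist b y := by
      have h6 : G.dist b b' + G.dist b y = G.dist b' y := by
        rw [dist_comm (u := b)]; omega
      have h7 : (G.dist b b' : ℝ) + G.dist b y = G.dist b' y := by exact_mod_cast h6
      linarith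
    rw [h5, abs_sub_comm]
    exact le_abs_self _
  · obtain ⟨-, -, h4⟩ := h2.split h
    have h5 : (G.dist b b' : ℝ) = G.dist b y - G.dist b' y := by
      have h7 : (G.dist b b' : ℝ) + G.dist b' y = G.dist b y := by exact_mod_cast h4
      linarith
    rw [h5]
    exact le_abs_self _

theorem exists_not_thin (hc : G.Connected) (k : ℕ) (x y z : V) (c : Fin 3 → V)
    (hyz : 4 * k ≤ G.dist y z) (h1 : ∀ i, G.dist y (c i) ≤ 2 * k)
    (h2 : ∀ i, G.dist (c i) z ≤ 2 * k) (h3 : ∀ i j, i ≠ j → k ≤ G.dist (c i) (c j)) {δ : ℝ}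
    (hδ : 4 * δ < k) : ∃ (p : G.Walk x y) (q : G.Walk y z) (r : G.Walk z x),
      IsGeodesic G p ∧ IsGeodesic G q ∧ IsGeodesic G r ∧ ¬ IsThin G δ p q r := by
  obtain ⟨p, hp⟩ := hc.exists_walk_length_eq_dist x y
  obtain ⟨r, hr⟩ := hc.exists_walk_length_eq_dist z x
  have hq : ∀ i, ∃ q : G.Walk y z, IsGeodesic G q ∧ c i ∈ q.support := by
    intro i
    obtain ⟨a, ha⟩ := hc.exists_walk_length_eq_dist y (c i)
    obtain ⟨b, hb⟩ := hc.exists_walk_length_eq_dist (c i) z
    refine ⟨a.append b, ?_, ?_⟩
    · have h4 := dist_le (a.append b)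
      have h5 := h1 i
      have h6 := h2 i
      unfold IsGeodesic
      rw [Walk.length_append] at h4 ⊢
      omega
    · rw [Walk.mem_support_append_iff]
      exact Or.inl a.end_mem_support
  have hd1 : ∀ i, G.dist y (c i) = 2 * k := by
    intro i
    have h4 := hc.dist_triangle (u := y) (v := c i) (w := z)
    have h5 := h1 i
    have h6 := h2 i
    omega
  have hd2 : ∀ i, G.dist (c i) z = 2 * k := by
    intro i
    have h4 := hc.dist_triangle (u := y) (v := c i) (w := z)
    have h5 := h1 i
    have h6 := h2 i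
    omega
  by_contra hcon
  push Not at hcon
  have hb : ∀ i, ∃ b, (b ∈ r.support ∨ b ∈ p.support) ∧ (G.dist (c i) b : ℝ) ≤ δ := by
    intro i
    obtain ⟨q, hq1, hq2⟩ := hq i
    exact (hcon p q r hp hq1 hr).2.1 (c i) hq2
  choose b hb1 hb2 using hb
  have htri : ∀ u v w : V, (G.dist u w : ℝ) ≤ G.dist u v + G.dist v w := by
    intro u v w
    exact_mod_cast hc.dist_triangle (u := u) (v := v) (w := w)
  -- the two ends for which we compare
  have key : ∀ (e x' : V) (s : G.Walk x' e), IsGeodesic G s →
      (∀ i, (G.dist (c i) e : ℝ) = 2 * k) → ∀ i j, i ≠ j → b i ∈ s.support →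
      b j ∈ s.support → False := by
    intro e x' s hs he i j hij hi hj
    have h4 := hs.dist_le_abs hi hj
    have h5 : |(G.dist (b i) e : ℝ) - G.dist (b j) e| ≤ 2 * δ := by
      rw [abs_le]
      have ti := htri (c i) (b i) e
      have ti' := htri (b i) (c i) e
      have tj := htri (c j) (b j) e
      have tj' := htri (b j) (c j) e
      rw [dist_comm (u := b i) (v := c i)] at ti'
      rw [dist_comm (u := b j) (v := c j)] at tj'
      have hi2 := hb2 i
      have hj2 := hb2 j
      have hei := he i
      have hej := he j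
      constructor <;> linarith
    have h6 : (k : ℝ) ≤ G.dist (c i) (c j) := by exact_mod_cast h3 i j hij
    have h7 := htri (c i) (b i) (c j)
    have h8 := htri (b i) (b j) (c j)
    rw [dist_comm (u := b j) (v := c j)] at h8
    have hi2 := hb2 i
    have hj2 := hb2 j
    linarith
  have hy : ∀ i, (G.dist (c i) y : ℝ) = 2 * k := by
    intro i
    rw [dist_comm]
    exact_mod_cast hd1 i
  have hz : ∀ i, (G.dist (c i) z : ℝ) = 2 * k := by
    intro i
    exact_mod_cast hd2 i
  have hr' : IsGeodesic G r.reverse := by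
    unfold IsGeodesic
    rw [Walk.length_reverse, hr, dist_comm]
  classical
  obtain ⟨i, j, hij, hsame⟩ := Fintype.exists_ne_map_eq_of_card_lt
    (fun i : Fin 3 => decide (b i ∈ r.support)) (by simp)
  by_cases hi : b i ∈ r.support
  · have hj : b j ∈ r.support := by simpa [hi] using hsame
    refine key z x r.reverse hr' hz i j hij ?_ ?_
    · rw [Walk.support_reverse]; exact List.mem_reverse.2 hi
    · rw [Walk.support_reverse]; exact List.mem_reverse.2 hj
  · have hj : b j ∉ r.support := by simpa [hi] using hsame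
    exact key y x p hp hy i j hij ((hb1 i).resolve_left hi) ((hb1 j).resolve_left hj)

/-- A function which changes by at most one along the edges bounds the distance from below. -/
theorem le_dist_of_lipschitz (hc : G.Connected) (g : V → ℤ)
    (hg : ∀ u v, G.Adj u v → |g u - g v| ≤ 1) (x y : V) : |g x - g y| ≤ G.dist x y := by
  obtain ⟨p, hp⟩ := hc.exists_walk_length_eq_dist x y
  rw [← hp]
  clear hp
  induction p with
  | nil => simp
  | cons h p ih =>
    rename_i u v w
    have h1 := hg _ _ h
    rw [Walk.length_cons]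
    push_cast
    have h2 := abs_sub_le (g u) (g v) (g w)
    omega

end Pool.Agent.Q326.PV
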