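import Pool.Agent.Q326.PV.Conn
import Pool.Agent.Q326.PV.Thin

/-!
# A perturbed piece of a triangular lattice and its Voronoi cells
-/

namespace Pool.Agent.Q326.PV

open UpperHalfPlane Set

/-- The comparison function for the distances from `z`. -/
noncomputable def cmp (z p : ℍ) : ℝ := ‖(z : ℂ) - p‖ ^ 2 / p.im

theorem sq_norm_eq (z : ℂ) : ‖z‖ ^ 2 = z.re ^ 2 + z.im ^ 2 := by
  rw [Complex.sq_norm, Complex.normSq_apply]; ring

theorem cmp_eq (z p : ℍ) : cmp z p = aff p z - 2 * z.im := by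
  unfold cmp aff
  rw [sq_norm_eq]
  have := p.im_pos
  simp only [Complex.sub_re, Complex.sub_im, coe_re, coe_im]
  field_simp
  ring

theorem dist_le_iff_cmp (z p q : ℍ) : dist z p ≤ dist z q ↔ cmp z p ≤ cmp z q := by
  rw [dist_le_iff, cmp_eq, cmp_eq]
  constructor <;> intro h <;> linarith

theorem dist_lt_iff_cmp (z p q : ℍ) : dist z p < dist z q ↔ cmp z p < cmp z q := by
  rw [← not_le, ← not_le, dist_le_iff_cmp]

theorem dist_eq_iff_cmp (z p q : ℍ) : dist z p = dist z q ↔ cmp z p = cmp z q := by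
  rw [le_antisymm_iff, le_antisymm_iff, dist_le_iff_cmp, dist_le_iff_cmp]

/-- The lattice vectors. -/
noncomputable def ev (m n : ℤ) : ℂ := ⟨m + n / 2, 7 / 8 * n⟩

theorem ev_add (a b m n : ℤ) : ev (a + m) (b + n) = ev a b + ev m n := by
  unfold ev
  apply Complex.ext
  · simp only [Complex.add_re]; push_cast; ring
  · simp only [Complex.add_im]; push_cast; ring

theorem sq_norm_ev (m n : ℤ) : ‖ev m n‖ ^ 2 = ((m : ℝ) + n / 2) ^ 2 + (7 / 8 * (n : ℝ)) ^ 2 := by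
  rw [sq_norm_eq]; rfl

/-- The sites of the patch. -/
noncomputable def site (c ε : ℝ) (a b : ℤ) : ℂ := ⟨c, 1⟩ + (ε : ℂ) * ev a b

/-- The six neighbours of the origin. -/
def Six (m n : ℤ) : Prop := (m = 1 ∧ n = 0) ∨ (m = -1 ∧ n = 0) ∨ (m = 0 ∧ n = 1) ∨
  (m = 0 ∧ n = -1) ∨ (m = 1 ∧ n = -1) ∨ (m = -1 ∧ n = 1)

theorem norm_le_of_sq_le {z : ℂ} {x : ℝ} (hx : 0 ≤ x) (h : ‖z‖ ^ 2 ≤ x ^ 2) : ‖z‖ ≤ x :=
  (sq_le_sq₀ (norm_nonneg _) hx).1 h

theorem exists_six {w : ℂ} (hw : ‖w‖ = 3 / 4) : ∃ m n, Six m n ∧ ‖w - ev m n‖ ≤ 31 / 50 := by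
  have h0 : w.re ^ 2 + w.im ^ 2 = 9 / 16 := by
    rw [← sq_norm_eq, hw]; norm_num
  have hn : ∀ m n : ℤ, ‖w - ev m n‖ ^ 2 = (w.re - (m + n / 2)) ^ 2 + (w.im - 7 / 8 * n) ^ 2 := by
    intro m n
    rw [sq_norm_eq]; rfl
  set x := w.re
  set y := w.im
  have key : ∀ m n : ℤ, (x - (m + n / 2)) ^ 2 + (y - 7 / 8 * n) ^ 2 ≤ (31 / 50 : ℝ) ^ 2 →
      ‖w - ev m n‖ ≤ 31 / 50 := by
    intro m n h
    apply norm_le_of_sq_le (by norm_num)
    rw [hn]
    exact h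
  by_cases h1 : (590 / 1000 : ℝ) ≤ x
  · refine ⟨1, 0, by simp [Six], key _ _ ?_⟩
    push_cast
    nlinarith
  by_cases h2 : x ≤ -(590 / 1000 : ℝ)
  · refine ⟨-1, 0, by simp [Six], key _ _ ?_⟩
    push_cast
    nlinarith
  push Not at h1 h2
  have aux : ∀ p q : ℝ, 0 ≤ p → p < 590 / 1000 → 0 ≤ q → p ^ 2 + q ^ 2 = 9 / 16 →
      (597 / 1000 : ℝ) ≤ p / 2 + 7 / 8 * q := by
    intro p q hp hp' hq hpq
    by_contra hlt
    push Not at hlt
    have h3 : q < (597 / 1000 - p / 2) * (8 / 7) := by linarith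
    have h4 : q ^ 2 < ((597 / 1000 - p / 2) * (8 / 7)) ^ 2 := by
      apply pow_lt_pow_left₀ h3 hq (by norm_num)
    nlinarith
  rcases le_total 0 x with hx | hx <;> rcases le_total 0 y with hy | hy
  · refine ⟨0, 1, by simp [Six], key _ _ ?_⟩
    have := aux x y hx h1 hy h0
    push_cast
    nlinarith
  · refine ⟨1, -1, by simp [Six], key _ _ ?_⟩
    have := aux x (-y) hx h1 (by linarith) (by nlinarith)
    push_cast
    nlinarith
  · refine ⟨-1, 1, by simp [Six], key _ _ ?_⟩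
    have := aux (-x) y (by linarith) (by linarith) hy (by nlinarith)
    push_cast
    nlinarith
  · refine ⟨0, -1, by simp [Six], key _ _ ?_⟩
    have := aux (-x) (-y) (by linarith) (by linarith) (by linarith) (by nlinarith)
    push_cast
    nlinarith

theorem six_of_small {m n : ℤ} (h : ‖ev m n‖ ≤ 157 / 100) : (m = 0 ∧ n = 0) ∨ Six m n := by
  have h1 : ((m : ℝ) + n / 2) ^ 2 + (7 / 8 * (n : ℝ)) ^ 2 ≤ (157 / 100) ^ 2 := by
    rw [← sq_norm_ev]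
    exact pow_le_pow_left₀ (norm_nonneg _) h 2
  have h2 : (m : ℝ) ^ 2 + m * n + n ^ 2 < 3 := by nlinarith [sq_nonneg (n : ℝ)]
  have h3 : m ^ 2 + m * n + n ^ 2 < 3 := by exact_mod_cast h2
  have hn1 : n ≤ 1 := by nlinarith [sq_nonneg (2 * m + n)]
  have hn2 : -1 ≤ n := by nlinarith [sq_nonneg (2 * m + n)]
  have hm1 : m ≤ 1 := by nlinarith [sq_nonneg (2 * n + m)]
  have hm2 : -1 ≤ m := by nlinarith [sq_nonneg (2 * n + m)]
  unfold Six
  interval_cases m <;> interval_cases n <;> simp_all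

theorem one_le_norm_ev {m n : ℤ} (h : ¬ (m = 0 ∧ n = 0)) : 1 ≤ ‖ev m n‖ := by
  have h2 : 1 ≤ m ^ 2 + m * n + n ^ 2 := by
    by_contra hlt
    push Not at hlt
    apply h
    have h3 : (2 * m + n) ^ 2 + 3 * n ^ 2 < 4 := by nlinarith
    have h4 : n = 0 ∨ (n = 1 ∨ n = -1) := by
      have : n ^ 2 ≤ 1 := by nlinarith [sq_nonneg (2 * m + n)]
      have hn1 : n ≤ 1 := by nlinarith
      have hn2 : -1 ≤ n := by nlinarith
      omega
    rcases h4 with h4 | h4 | h4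
    · subst h4
      have : m ^ 2 < 1 := by nlinarith
      have hm1 : m < 1 := by nlinarith
      have hm2 : -1 < m := by nlinarith
      exact ⟨by omega, rfl⟩
    · subst h4
      have h5 : (2 * m + 1) ^ 2 < 1 := by nlinarith
      have hm1 : 2 * m + 1 < 1 := by nlinarith
      have hm2 : -1 < 2 * m + 1 := by nlinarith
      omega
    · subst h4
      have h5 : (2 * m - 1) ^ 2 < 1 := by nlinarith
      have hm1 : 2 * m - 1 < 1 := by nlinarith
      have hm2 : -1 < 2 * m - 1 := by nlinarith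
      omega
  have h3 : (1 : ℝ) ≤ (m : ℝ) ^ 2 + m * n + n ^ 2 := by exact_mod_cast h2
  have h4 : (1 : ℝ) ≤ ‖ev m n‖ ^ 2 := by
    rw [sq_norm_ev]
    nlinarith [sq_nonneg (n : ℝ)]
  nlinarith [norm_nonneg (ev m n)]

theorem norm_ev_six {m n : ℤ} (h : Six m n) : ‖ev m n‖ ≤ 101 / 100 := by
  apply norm_le_of_sq_le (by norm_num)
  rw [sq_norm_ev]
  rcases h with h | h | h | h | h | h <;> obtain ⟨rfl, rfl⟩ := h <;> push_cast <;> norm_num

/-- The points of `S` in the square window around `c + i` form a slightly perturbed piece of a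
triangular lattice of mesh `ε`. -/
structure IsPatch (S : Set ℍ) (c ε : ℝ) (M : ℕ) (v : ℤ → ℤ → ℍ) : Prop where
  pos : 0 < ε
  small : ε * (M + 1) ≤ 1 / 100
  mem : ∀ a b : ℤ, |a| ≤ M → |b| ≤ M → v a b ∈ S
  near : ∀ a b : ℤ, |a| ≤ M → |b| ≤ M → ‖(v a b : ℂ) - site c ε a b‖ ≤ ε / 100
  all : ∀ r ∈ S, ‖(r : ℂ) - ⟨c, 1⟩‖ ≤ 1 / 20 → ∃ a b : ℤ, |a| ≤ M ∧ |b| ≤ M ∧ r = v a b

namespace IsPatch

variable {S : Set ℍ} {c ε : ℝ} {M : ℕ} {v : ℤ → ℤ → ℍ}

theorem eps_le (h : IsPatch S c ε M v) : ε ≤ 1 / 100 := by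
  have h1 := h.small
  have h2 := h.pos
  have : (0 : ℝ) ≤ M := Nat.cast_nonneg M
  nlinarith

theorem norm_site (h : IsPatch S c ε M v) {a b : ℤ} (ha : |a| ≤ M) (hb : |b| ≤ M) :
    ‖site c ε a b - ⟨c, 1⟩‖ ≤ 24 / 1000 := by
  have h1 : site c ε a b - ⟨c, 1⟩ = (ε : ℂ) * ev a b := by unfold site; ring
  rw [h1, norm_mul, Complex.norm_real, Real.norm_of_nonneg h.pos.le]
  have h2 : ‖ev a b‖ ≤ |((a : ℝ) + b / 2)| + |7 / 8 * (b : ℝ)| :=
    Complex.norm_le_abs_re_add_abs_im _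
  have ha' : |(a : ℝ)| ≤ M := by exact_mod_cast ha
  have hb' : |(b : ℝ)| ≤ M := by exact_mod_cast hb
  have h3 : |((a : ℝ) + b / 2)| ≤ M + M / 2 := by
    rw [abs_le] at *
    constructor <;> linarith
  have h4 : |7 / 8 * (b : ℝ)| ≤ 7 / 8 * M := by
    rw [abs_le] at *
    constructor <;> linarith
  have h5 : ‖ev a b‖ ≤ 19 / 8 * M := by linarith
  have h6 := h.small
  have h7 := h.pos
  have : (0 : ℝ) ≤ M := Nat.cast_nonneg M
  nlinarith [mul_le_mul_of_nonneg_left h5 h7.le]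

theorem norm_pt (h : IsPatch S c ε M v) {a b : ℤ} (ha : |a| ≤ M) (hb : |b| ≤ M) :
    ‖(v a b : ℂ) - ⟨c, 1⟩‖ ≤ 25 / 1000 := by
  have h1 := h.near a b ha hb
  have h2 := h.norm_site ha hb
  have h3 := h.eps_le
  have h4 : (v a b : ℂ) - ⟨c, 1⟩ = ((v a b : ℂ) - site c ε a b) + (site c ε a b - ⟨c, 1⟩) := by
    ring
  rw [h4]
  have := norm_add_le ((v a b : ℂ) - site c ε a b) (site c ε a b - ⟨c, 1⟩)
  linarith

theorem im_of_norm {z : ℂ} {x : ℝ} (h : ‖z - ⟨c, 1⟩‖ ≤ x) : 1 - x ≤ z.im ∧ z.im ≤ 1 + x := by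
  have h1 := (Complex.abs_im_le_norm (z - ⟨c, 1⟩)).trans h
  simp only [Complex.sub_im] at h1
  rw [abs_le] at h1
  constructor <;> linarith

theorem im_pt (h : IsPatch S c ε M v) {a b : ℤ} (ha : |a| ≤ M) (hb : |b| ≤ M) :
    97 / 100 ≤ (v a b).im ∧ (v a b).im ≤ 103 / 100 := by
  have h1 := im_of_norm (h.norm_pt ha hb)
  rw [coe_im] at h1
  constructor <;> linarith [h1.1, h1.2]

/-- A point whose comparison value is small is close. -/
theorem close_of_cmp (h : IsPatch S c ε M v) {t r : ℍ} (ht : ‖(t : ℂ) - ⟨c, 1⟩‖ ≤ 1 / 25)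
    (hr : cmp t r ≤ 3 / 5 * ε ^ 2) : ‖(t : ℂ) - r‖ ≤ 4 / 5 * ε := by
  set x := ‖(t : ℂ) - r‖ with hx
  have hx0 : 0 ≤ x := norm_nonneg _
  have h1 := (im_of_norm ht).2
  rw [coe_im] at h1
  have h2 : |t.im - r.im| ≤ x := by
    have := Complex.abs_im_le_norm ((t : ℂ) - r)
    simpa using this
  rw [abs_le] at h2
  have hrpos := r.im_pos
  have h3 : x ^ 2 ≤ 3 / 5 * ε ^ 2 * r.im := by
    unfold cmp at hr
    rwa [div_le_iff₀ hrpos] at hr
  have hε := h.eps_le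
  have hε0 := h.pos
  have h4 : r.im ≤ 26 / 25 + x := by linarith [h2.1]
  have h5 : x ^ 2 ≤ 3 / 5 * ε ^ 2 * (26 / 25 + x) :=
    h3.trans (mul_le_mul_of_nonneg_left h4 (by positivity))
  have hεsq : ε ^ 2 ≤ 1 / 10000 := by nlinarith
  have h6 : x < 1 / 50 := by
    by_contra hge
    push Not at hge
    have h7 : 3 / 5 * ε ^ 2 * (26 / 25 + x) ≤ 3 / 5 * (1 / 10000) * (26 / 25 + x) := by
      apply mul_le_mul_of_nonneg_right _ (by linarith)
      linarith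
    nlinarith
  have h8 : x ^ 2 ≤ (4 / 5 * ε) ^ 2 := by nlinarith [sq_nonneg ε]
  exact (sq_le_sq₀ hx0 (by positivity)).1 h8

theorem norm_diff (h : IsPatch S c ε M v) {a b m n : ℤ} (ha : |a| ≤ M) (hb : |b| ≤ M)
    (ha' : |a + m| ≤ M) (hb' : |b + n| ≤ M) :
    ‖((v (a + m) (b + n) : ℂ) - v a b) - (ε : ℂ) * ev m n‖ ≤ ε / 50 := by
  have h1 := h.near a b ha hb
  have h2 := h.near (a + m) (b + n) ha' hb'
  have h3 : ((v (a + m) (b + n) : ℂ) - v a b) - (ε : ℂ) * ev m n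
      = ((v (a + m) (b + n) : ℂ) - site c ε (a + m) (b + n)) - ((v a b : ℂ) - site c ε a b) := by
    unfold site
    rw [ev_add]
    ring
  rw [h3]
  have := norm_sub_le ((v (a + m) (b + n) : ℂ) - site c ε (a + m) (b + n))
    ((v a b : ℂ) - site c ε a b)
  linarith

end IsPatch

end Pool.Agent.Q326.PV
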