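import Pool.Agent.Q326.PV.Patch

/-!
# Voronoi neighbours inside the patch
-/

namespace Pool.Agent.Q326.PV

open UpperHalfPlane Set

theorem exists_mix (u t : ℍ) {s : ℝ} (h0 : 0 ≤ s) (h1 : s ≤ 1) :
    0 < (1 - s) * u.im ^ 2 + s * t.im ^ 2 + s * (1 - s) * (t.re - u.re) ^ 2 := by
  have h2 := u.im_pos
  have h3 := t.im_pos
  have h4 : 0 ≤ s * (1 - s) * (t.re - u.re) ^ 2 :=
    mul_nonneg (mul_nonneg h0 (by linarith)) (sq_nonneg _)
  have h5 : 0 < u.im ^ 2 := by positivity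
  have h6 : 0 < t.im ^ 2 := by positivity
  rcases eq_or_lt_of_le h0 with h | h
  · subst h
    nlinarith
  · nlinarith [mul_pos h h6, mul_nonneg (sub_nonneg.2 h1) h5.le]

/-- The path between two points used in the proof that cells are star-shaped. -/
noncomputable def gpath (u t : ℍ) (s : ℝ) : ℂ :=
  ⟨(1 - s) * u.re + s * t.re,
    Real.sqrt ((1 - s) * u.im ^ 2 + s * t.im ^ 2 + s * (1 - s) * (t.re - u.re) ^ 2)⟩

theorem continuous_gpath (u t : ℍ) : Continuous (gpath u t) := by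
  have h1 : gpath u t = fun s => (((1 - s) * u.re + s * t.re : ℝ) : ℂ)
      + ((Real.sqrt ((1 - s) * u.im ^ 2 + s * t.im ^ 2
        + s * (1 - s) * (t.re - u.re) ^ 2) : ℝ) : ℂ) * Complex.I := by
    funext s
    apply Complex.ext
    · simp only [gpath, Complex.add_re, Complex.ofReal_re, Complex.mul_re, Complex.I_re,
        Complex.ofReal_im, Complex.I_im]
      ring
    · simp only [gpath, Complex.add_im, Complex.ofReal_im, Complex.mul_im, Complex.I_re,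
        Complex.ofReal_re, Complex.I_im]
      ring
  rw [h1]
  fun_prop

theorem gpath_zero (u t : ℍ) : gpath u t 0 = u := by
  apply Complex.ext
  · simp [gpath]
  · simp only [gpath, sub_zero, one_mul, zero_mul, add_zero]
    rw [Real.sqrt_sq u.im_pos.le]
    rfl

theorem gpath_one (u t : ℍ) : gpath u t 1 = t := by
  apply Complex.ext
  · simp [gpath]
  · simp only [gpath, sub_self, one_mul, zero_mul, mul_zero, add_zero, zero_add]
    rw [Real.sqrt_sq t.im_pos.le]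
    rfl

theorem gpath_mem {S : Set ℍ} {u t : ℍ} (ht : t ∈ cell S u) {s : ℝ} (h0 : 0 ≤ s) (h1 : s ≤ 1)
    {z : ℍ} (hz : (z : ℂ) = gpath u t s) : z ∈ cell S u := by
  intro q hq
  have hre : z.re = (1 - s) * u.re + s * t.re := congrArg Complex.re hz
  have him : z.im = Real.sqrt ((1 - s) * u.im ^ 2 + s * t.im ^ 2
      + s * (1 - s) * (t.re - u.re) ^ 2) := congrArg Complex.im hz
  have hsq : z.re ^ 2 + z.im ^ 2 = (1 - s) * (u.re ^ 2 + u.im ^ 2)
      + s * (t.re ^ 2 + t.im ^ 2) := by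
    rw [him, hre, Real.sq_sqrt (exists_mix u t h0 h1).le]
    ring
  have haff : ∀ v : ℍ, aff v z = (1 - s) * aff v u + s * aff v t := by
    intro v
    unfold aff
    rw [hsq, hre]
    have := v.im_pos
    field_simp
    ring
  rw [dist_le_iff, haff, haff]
  have h2 : aff u u ≤ aff q u := by
    rw [← dist_le_iff, dist_self]
    exact dist_nonneg
  have h3 : aff u t ≤ aff q t := by
    rw [← dist_le_iff]
    exact ht q hq
  nlinarith [mul_le_mul_of_nonneg_left h2 (sub_nonneg.2 h1), mul_le_mul_of_nonneg_left h3 h0]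

namespace IsPatch

variable {S : Set ℍ} {c ε : ℝ} {M : ℕ} {v : ℤ → ℤ → ℍ}

theorem six_le {M : ℕ} {a b m n : ℤ} (h : Six m n) (ha : |a| + 1 ≤ M) (hb : |b| + 1 ≤ M) :
    |a + m| ≤ M ∧ |b + n| ≤ M := by
  rw [← sub_nonneg] at ha hb
  have h1 : |a| ≤ M - 1 := by linarith
  have h2 : |b| ≤ M - 1 := by linarith
  rw [abs_le] at h1 h2
  rw [abs_le, abs_le]
  unfold Six at h
  omega

/-- The cells of the interior points of the patch are small. -/
theorem cell_small (h : IsPatch S c ε M v) {a b : ℤ} (ha : |a| + 1 ≤ M) (hb : |b| + 1 ≤ M)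
    {t : ℍ} (ht : t ∈ cell S (v a b)) : ‖(t : ℂ) - v a b‖ ≤ 3 / 4 * ε := by
  by_contra hlt
  push Not at hlt
  have ha' : |a| ≤ M := by omega
  have hb' : |b| ≤ M := by omega
  have hε := h.pos
  set u := v a b with hu
  have hcont : Continuous fun s => ‖gpath u t s - u‖ := (continuous_gpath u t).sub
    continuous_const |>.norm
  have hivt := intermediate_value_Icc (zero_le_one (α := ℝ)) hcont.continuousOn
  have hmem : 3 / 4 * ε ∈ Icc (‖gpath u t 0 - u‖) (‖gpath u t 1 - u‖) := by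
    rw [gpath_zero, gpath_one, sub_self, norm_zero]
    exact ⟨by positivity, hlt.le⟩
  obtain ⟨s, ⟨hs0, hs1⟩, hs⟩ := hivt hmem
  set z : ℍ := ⟨gpath u t s, Real.sqrt_pos.2 (exists_mix u t hs0 hs1)⟩ with hz
  have hzc : (z : ℂ) = gpath u t s := rfl
  have hzcell := gpath_mem ht hs0 hs1 hzc
  have hzn : ‖(z : ℂ) - u‖ = 3 / 4 * ε := by rw [hzc]; exact hs
  have hw : ‖((z : ℂ) - u) / (ε : ℂ)‖ = 3 / 4 := by
    rw [norm_div, hzn, Complex.norm_real, Real.norm_of_nonneg hε.le]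
    field_simp
  obtain ⟨m, n, hsix, hmn⟩ := exists_six hw
  obtain ⟨ham, hbn⟩ := six_le hsix ha hb
  set q := v (a + m) (b + n) with hq
  have hqS : q ∈ S := h.mem _ _ ham hbn
  have h1 := h.norm_diff ha' hb' ham hbn
  have h2 : ‖((z : ℂ) - u) - (ε : ℂ) * ev m n‖ ≤ 31 / 50 * ε := by
    have h3 : ((z : ℂ) - u) - (ε : ℂ) * ev m n
        = (ε : ℂ) * (((z : ℂ) - u) / (ε : ℂ) - ev m n) := by
      have : (ε : ℂ) ≠ 0 := by exact_mod_cast hε.ne'
      field_simp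
    rw [h3, norm_mul, Complex.norm_real, Real.norm_of_nonneg hε.le]
    nlinarith
  have h4 : ‖(z : ℂ) - q‖ ≤ 32 / 50 * ε := by
    have h5 : (z : ℂ) - q = (((z : ℂ) - u) - (ε : ℂ) * ev m n)
        - (((q : ℂ) - u) - (ε : ℂ) * ev m n) := by ring
    rw [h5]
    have := norm_sub_le (((z : ℂ) - u) - (ε : ℂ) * ev m n)
      (((q : ℂ) - u) - (ε : ℂ) * ev m n)
    linarith
  have hcell := hzcell q hqS
  rw [dist_le_iff_cmp] at hcell
  unfold cmp at hcell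
  rw [hzn] at hcell
  have h5 : ‖(z : ℂ) - q‖ ^ 2 ≤ (32 / 50 * ε) ^ 2 := pow_le_pow_left₀ (norm_nonneg _) h4 2
  have hui := h.im_pt ha' hb'
  have hqi := h.im_pt ham hbn
  rw [← hu] at hui
  rw [← hq] at hqi
  have hup := u.im_pos
  have hqp := q.im_pos
  rw [div_le_div_iff₀ hup hqp] at hcell
  have hε2 : 0 < ε ^ 2 := by positivity
  nlinarith [mul_le_mul_of_nonneg_left hqi.1 (by positivity : (0 : ℝ) ≤ (3 / 4 * ε) ^ 2),
    mul_le_mul_of_nonneg_right h5 hup.le, mul_le_mul_of_nonneg_left hui.2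
      (by positivity : (0 : ℝ) ≤ (32 / 50 * ε) ^ 2)]

/-- The Voronoi neighbours of an interior point of the patch are lattice neighbours. -/
theorem adj_six (h : IsPatch S c ε M v) {a b : ℤ} (ha : |a| + 1 ≤ M) (hb : |b| + 1 ≤ M)
    {u r : S} (hu : (u : ℍ) = v a b) (hadj : (vorGraph S).Adj u r) :
    ∃ m n, Six m n ∧ |a + m| ≤ M ∧ |b + n| ≤ M ∧ (r : ℍ) = v (a + m) (b + n) := by
  obtain ⟨hne, x, y, hxy, hseg⟩ := hadj
  have hx : x ∈ cell S u ∩ cell S r := hseg (by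
    change dist x x + dist x y = dist x y
    rw [dist_self, zero_add])
  obtain ⟨hxu, hxr⟩ := hx
  have ha' : |a| ≤ M := by omega
  have hb' : |b| ≤ M := by omega
  have hε := h.pos
  have hε1 := h.eps_le
  rw [hu] at hxu
  have h1 := h.cell_small ha hb hxu
  have hui := h.im_pt ha' hb'
  have hup := (v a b).im_pos
  have h2 : cmp x (v a b) ≤ 3 / 5 * ε ^ 2 := by
    unfold cmp
    rw [div_le_iff₀ hup]
    have h3 : ‖(x : ℂ) - v a b‖ ^ 2 ≤ (3 / 4 * ε) ^ 2 := pow_le_pow_left₀ (norm_nonneg _) h1 2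
    nlinarith [mul_le_mul_of_nonneg_left hui.1 (by positivity : (0 : ℝ) ≤ 3 / 5 * ε ^ 2)]
  have h3 : cmp x r ≤ 3 / 5 * ε ^ 2 := by
    have := hxr u u.2
    rw [dist_le_iff_cmp, hu] at this
    exact this.trans h2
  have hpt := h.norm_pt ha' hb'
  have hxc : ‖(x : ℂ) - ⟨c, 1⟩‖ ≤ 1 / 25 := by
    have h4 : (x : ℂ) - ⟨c, 1⟩ = ((x : ℂ) - v a b) + ((v a b : ℂ) - ⟨c, 1⟩) := by ring
    rw [h4]
    have := norm_add_le ((x : ℂ) - v a b) ((v a b : ℂ) - ⟨c, 1⟩)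
    linarith
  have h4 := h.close_of_cmp hxc h3
  have h5 : ‖(r : ℂ) - v a b‖ ≤ 31 / 20 * ε := by
    have h6 : ((r : ℍ) : ℂ) - v a b = ((x : ℂ) - v a b) - ((x : ℂ) - r) := by ring
    rw [h6]
    have := norm_sub_le ((x : ℂ) - v a b) ((x : ℂ) - r)
    linarith
  have h6 : ‖((r : ℍ) : ℂ) - ⟨c, 1⟩‖ ≤ 1 / 20 := by
    have h7 : ((r : ℍ) : ℂ) - ⟨c, 1⟩ = (((r : ℍ) : ℂ) - v a b) + ((v a b : ℂ) - ⟨c, 1⟩) := by ring
    rw [h7]
    have := norm_add_le (((r : ℍ) : ℂ) - v a b) ((v a b : ℂ) - ⟨c, 1⟩)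
    linarith
  obtain ⟨a', b', ha2, hb2, hr⟩ := h.all r r.2 h6
  have e1 : a + (a' - a) = a' := by ring
  have e2 : b + (b' - b) = b' := by ring
  have h7 := h.norm_diff (m := a' - a) (n := b' - b) ha' hb' (by rwa [e1]) (by rwa [e2])
  rw [e1, e2, ← hr] at h7
  have h8 : ‖(ε : ℂ) * ev (a' - a) (b' - b)‖ ≤ 157 / 100 * ε := by
    have h9 : (ε : ℂ) * ev (a' - a) (b' - b) = (((r : ℍ) : ℂ) - v a b)
        - ((((r : ℍ) : ℂ) - v a b) - (ε : ℂ) * ev (a' - a) (b' - b)) := by ring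
    rw [h9]
    have := norm_sub_le (((r : ℍ) : ℂ) - v a b)
      ((((r : ℍ) : ℂ) - v a b) - (ε : ℂ) * ev (a' - a) (b' - b))
    linarith
  rw [norm_mul, Complex.norm_real, Real.norm_of_nonneg hε.le] at h8
  have h9 : ‖ev (a' - a) (b' - b)‖ ≤ 157 / 100 := by
    have : ε * ‖ev (a' - a) (b' - b)‖ ≤ ε * (157 / 100) := by linarith
    exact le_of_mul_le_mul_left this hε
  rcases six_of_small h9 with h10 | h10
  · exfalso
    apply hne
    apply Subtype.ext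
    rw [hu, hr]
    rw [show a' = a by omega, show b' = b by omega]
  · exact ⟨a' - a, b' - b, h10, by rwa [e1], by rwa [e2], by rw [e1, e2, hr]⟩

/-- Distinct lattice indices give well separated points. -/
theorem sep (h : IsPatch S c ε M v) {a b a' b' : ℤ} (ha : |a| ≤ M) (hb : |b| ≤ M)
    (ha' : |a'| ≤ M) (hb' : |b'| ≤ M) (hne : ¬ (a' = a ∧ b' = b)) :
    98 / 100 * ε ≤ ‖(v a' b' : ℂ) - v a b‖ := by
  have hε := h.pos
  have e1 : a + (a' - a) = a' := by ring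
  have e2 : b + (b' - b) = b' := by ring
  have h7 := h.norm_diff (m := a' - a) (n := b' - b) ha hb (by rwa [e1]) (by rwa [e2])
  rw [e1, e2] at h7
  have h8 : 1 ≤ ‖ev (a' - a) (b' - b)‖ := one_le_norm_ev (by
    rintro ⟨h1, h2⟩
    exact hne ⟨by omega, by omega⟩)
  have h9 : ‖(ε : ℂ) * ev (a' - a) (b' - b)‖ ≤ ‖(v a' b' : ℂ) - v a b‖
      + ‖((v a' b' : ℂ) - v a b) - (ε : ℂ) * ev (a' - a) (b' - b)‖ := by
    have h10 : (ε : ℂ) * ev (a' - a) (b' - b) = ((v a' b' : ℂ) - v a b)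
        - (((v a' b' : ℂ) - v a b) - (ε : ℂ) * ev (a' - a) (b' - b)) := by ring
    have h11 := norm_sub_le ((v a' b' : ℂ) - v a b)
      (((v a' b' : ℂ) - v a b) - (ε : ℂ) * ev (a' - a) (b' - b))
    rwa [← h10] at h11
  rw [norm_mul, Complex.norm_real, Real.norm_of_nonneg hε.le] at h9
  nlinarith

theorem inj (h : IsPatch S c ε M v) {a b a' b' : ℤ} (ha : |a| ≤ M) (hb : |b| ≤ M)
    (ha' : |a'| ≤ M) (hb' : |b'| ≤ M) (he : v a' b' = v a b) : a' = a ∧ b' = b := by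
  by_contra hne
  have h1 := h.sep ha hb ha' hb' hne
  rw [he, sub_self, norm_zero] at h1
  have := h.pos
  linarith

theorem stewart (x u w : ℂ) (s : ℝ) : ‖x - (u + s * (w - u))‖ ^ 2
    = (1 - s) * ‖x - u‖ ^ 2 + s * ‖x - w‖ ^ 2 - s * (1 - s) * ‖w - u‖ ^ 2 := by
  simp only [sq_norm_eq, Complex.sub_re, Complex.sub_im, Complex.add_re, Complex.add_im,
    Complex.mul_re, Complex.mul_im, Complex.ofReal_re, Complex.ofReal_im]
  ring

theorem num_aux {s ε A B C : ℝ} (hs0 : 0 ≤ s) (hs1 : s ≤ 1) (h5 : (98 / 100 * ε) ^ 2 ≤ A)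
    (h6 : (98 / 100 * ε) ^ 2 ≤ B) (h7 : C ≤ (103 / 100 * ε) ^ 2) (hC : 0 ≤ C) :
    69 / 100 * ε ^ 2 ≤ (1 - s) * A + s * B - s * (1 - s) * C := by
  have h8 : s * (1 - s) ≤ 1 / 4 := by nlinarith [sq_nonneg (s - 1 / 2)]
  have e0 : 0 ≤ ε ^ 2 := by positivity
  have e1 : (1 - s) * (98 / 100 * ε) ^ 2 ≤ (1 - s) * A :=
    mul_le_mul_of_nonneg_left h5 (by linarith)
  have e2 : s * (98 / 100 * ε) ^ 2 ≤ s * B :=
    mul_le_mul_of_nonneg_left h6 hs0
  have e3 : s * (1 - s) * C ≤ 1 / 4 * (103 / 100 * ε) ^ 2 :=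
    mul_le_mul h8 h7 hC (by norm_num)
  nlinarith

theorem num_aux2 {ε X y : ℝ} (hε : 0 < ε) (h1 : 69 / 100 * ε ^ 2 ≤ X)
    (h2 : X ≤ 28 / 100 * ε ^ 2 * y) (h3 : y ≤ 1 + 1 / 20) : False := by
  have e0 : 0 < ε ^ 2 := by positivity
  nlinarith [mul_le_mul_of_nonneg_left h3 (by positivity : (0 : ℝ) ≤ 28 / 100 * ε ^ 2)]

/-- Lattice neighbours in the patch are Voronoi neighbours. -/
theorem adj_of_six (h : IsPatch S c ε M v) {a b m n : ℤ} (hsix : Six m n) (ha : |a| ≤ M)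
    (hb : |b| ≤ M) (ha' : |a + m| ≤ M) (hb' : |b + n| ≤ M) :
    ∀ (hS : LocFin S), (vorGraph S).Adj ⟨v a b, h.mem a b ha hb⟩
      ⟨v (a + m) (b + n), h.mem _ _ ha' hb'⟩ := by
  intro hS
  have hε := h.pos
  have hε1 := h.eps_le
  set u := v a b with hu
  set w := v (a + m) (b + n) with hw
  have hui := h.im_pt ha hb
  have hwi := h.im_pt ha' hb'
  rw [← hu] at hui
  rw [← hw] at hwi
  have hup := u.im_pos
  have hwp := w.im_pos
  have hsu : 0 < Real.sqrt u.im := Real.sqrt_pos.2 hup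
  have hsw : 0 < Real.sqrt w.im := Real.sqrt_pos.2 hwp
  have hnot : ¬ (a + m = a ∧ b + n = b) := by
    unfold Six at hsix
    omega
  have hne : (⟨u, h.mem a b ha hb⟩ : S) ≠ ⟨w, h.mem _ _ ha' hb'⟩ := by
    intro heq
    have heq' : u = w := congrArg Subtype.val heq
    exact hnot (h.inj ha hb ha' hb' heq'.symm)
  -- the length of the segment
  have hL : ‖(w : ℂ) - u‖ ≤ 103 / 100 * ε := by
    have h1 := h.norm_diff ha hb ha' hb'
    have h2 := norm_ev_six hsix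
    have h3 : (w : ℂ) - u = (((w : ℂ) - u) - (ε : ℂ) * ev m n) + (ε : ℂ) * ev m n := by ring
    rw [h3]
    have h4 := norm_add_le (((w : ℂ) - u) - (ε : ℂ) * ev m n) ((ε : ℂ) * ev m n)
    rw [norm_mul, Complex.norm_real, Real.norm_of_nonneg hε.le] at h4
    nlinarith
  set s : ℝ := Real.sqrt u.im / (Real.sqrt u.im + Real.sqrt w.im) with hs
  have hs0 : 0 < s := by positivity
  have hs1 : s < 1 := by
    rw [hs, div_lt_one (by positivity)]
    linarith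
  have hs1' : 1 - s = Real.sqrt w.im / (Real.sqrt u.im + Real.sqrt w.im) := by
    rw [hs]
    field_simp
    ring
  set tc : ℂ := (u : ℂ) + s * ((w : ℂ) - u) with htc
  have htim : 0 < tc.im := by
    have h1 : tc.im = (1 - s) * u.im + s * w.im := by
      rw [htc]
      simp only [Complex.add_im, Complex.mul_im, Complex.sub_re, Complex.sub_im,
        Complex.ofReal_re, Complex.ofReal_im, coe_im, coe_re]
      ring
    rw [h1]
    have : 0 < 1 - s := by linarith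
    positivity
  set t : ℍ := ⟨tc, htim⟩ with ht
  have htco : (t : ℂ) = tc := rfl
  have hn1 : ‖(t : ℂ) - u‖ ^ 2 = s ^ 2 * ‖(w : ℂ) - u‖ ^ 2 := by
    rw [htco, htc, add_sub_cancel_left, norm_mul, Complex.norm_real, mul_pow,
      Real.norm_of_nonneg hs0.le]
  have hn2 : ‖(t : ℂ) - w‖ ^ 2 = (1 - s) ^ 2 * ‖(w : ℂ) - u‖ ^ 2 := by
    have h1 : (t : ℂ) - w = ((s - 1 : ℝ) : ℂ) * ((w : ℂ) - u) := by
      rw [htco, htc]
      push_cast
      ring
    rw [h1, norm_mul, Complex.norm_real, mul_pow, Real.norm_eq_abs, sq_abs]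
    ring
  have hsq1 : s ^ 2 / u.im = 1 / (Real.sqrt u.im + Real.sqrt w.im) ^ 2 := by
    rw [hs, div_pow, Real.sq_sqrt hup.le]
    field_simp
  have hsq2 : (1 - s) ^ 2 / w.im = 1 / (Real.sqrt u.im + Real.sqrt w.im) ^ 2 := by
    rw [hs1', div_pow, Real.sq_sqrt hwp.le]
    field_simp
  have hc1 : cmp t u = ‖(w : ℂ) - u‖ ^ 2 / (Real.sqrt u.im + Real.sqrt w.im) ^ 2 := by
    unfold cmp
    rw [hn1, mul_comm, mul_div_assoc, hsq1]
    ring
  have hc2 : cmp t w = ‖(w : ℂ) - u‖ ^ 2 / (Real.sqrt u.im + Real.sqrt w.im) ^ 2 := by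
    unfold cmp
    rw [hn2, mul_comm, mul_div_assoc, hsq2]
    ring
  have hbig : 388 / 100 ≤ (Real.sqrt u.im + Real.sqrt w.im) ^ 2 := by
    have h1 : (Real.sqrt u.im) ^ 2 = u.im := Real.sq_sqrt hup.le
    have h2 : (Real.sqrt w.im) ^ 2 = w.im := Real.sq_sqrt hwp.le
    have h3 : (97 / 100 : ℝ) ≤ Real.sqrt u.im * Real.sqrt w.im := by
      rw [← Real.sqrt_mul hup.le]
      apply Real.le_sqrt_of_sq_le
      nlinarith [hui.1, hwi.1]
    nlinarith [hui.1, hwi.1]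
  have hval : cmp t u ≤ 28 / 100 * ε ^ 2 := by
    rw [hc1, div_le_iff₀ (by positivity)]
    have h1 : ‖(w : ℂ) - u‖ ^ 2 ≤ (103 / 100 * ε) ^ 2 := pow_le_pow_left₀ (norm_nonneg _) hL 2
    nlinarith [mul_le_mul_of_nonneg_left hbig (by positivity : (0 : ℝ) ≤ 28 / 100 * ε ^ 2)]
  refine adj_of_two hS hne (t := t) ?_ ?_
  · change dist t u = dist t w
    rw [dist_eq_iff_cmp, hc1, hc2]
  · intro q hq hqu hqw
    change dist t u < dist t q
    rw [dist_lt_iff_cmp]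
    by_contra hge
    push Not at hge
    have h1 : cmp t q ≤ 3 / 5 * ε ^ 2 := by
      have : 0 < ε ^ 2 := by positivity
      linarith
    have hupt := h.norm_pt ha hb
    rw [← hu] at hupt
    have htu : ‖(t : ℂ) - u‖ ≤ 103 / 100 * ε := by
      rw [htco, htc, add_sub_cancel_left, norm_mul, Complex.norm_real,
        Real.norm_of_nonneg hs0.le]
      nlinarith [norm_nonneg ((w : ℂ) - u)]
    have htc1 : ‖(t : ℂ) - ⟨c, 1⟩‖ ≤ 1 / 25 := by
      have h4 : (t : ℂ) - ⟨c, 1⟩ = ((t : ℂ) - u) + ((u : ℂ) - ⟨c, 1⟩) := by ring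
      rw [h4]
      have := norm_add_le ((t : ℂ) - u) ((u : ℂ) - ⟨c, 1⟩)
      linarith
    have h2 := h.close_of_cmp htc1 h1
    have h3 : ‖(q : ℂ) - ⟨c, 1⟩‖ ≤ 1 / 20 := by
      have h4 : (q : ℂ) - ⟨c, 1⟩ = ((t : ℂ) - ⟨c, 1⟩) - ((t : ℂ) - q) := by ring
      rw [h4]
      have := norm_sub_le ((t : ℂ) - ⟨c, 1⟩) ((t : ℂ) - q)
      linarith
    obtain ⟨a', b', ha2, hb2, hqv⟩ := h.all q hq h3
    have hd1 : 98 / 100 * ε ≤ ‖(q : ℂ) - u‖ := by
      rw [hqv]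
      apply h.sep ha hb ha2 hb2
      rintro ⟨h4, h5⟩
      apply hqu
      rw [hqv, h4, h5]
    have hd2 : 98 / 100 * ε ≤ ‖(q : ℂ) - w‖ := by
      rw [hqv]
      apply h.sep ha' hb' ha2 hb2
      rintro ⟨h4, h5⟩
      apply hqw
      rw [hqv, h4, h5]
    have h4 : ‖(q : ℂ) - t‖ ^ 2 = (1 - s) * ‖(q : ℂ) - u‖ ^ 2 + s * ‖(q : ℂ) - w‖ ^ 2
        - s * (1 - s) * ‖(w : ℂ) - u‖ ^ 2 := by
      rw [htco, htc]
      exact stewart _ _ _ _
    have h5 : (98 / 100 * ε) ^ 2 ≤ ‖(q : ℂ) - u‖ ^ 2 := pow_le_pow_left₀ (by positivity) hd1 2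
    have h6 : (98 / 100 * ε) ^ 2 ≤ ‖(q : ℂ) - w‖ ^ 2 := pow_le_pow_left₀ (by positivity) hd2 2
    have h7 : ‖(w : ℂ) - u‖ ^ 2 ≤ (103 / 100 * ε) ^ 2 := pow_le_pow_left₀ (norm_nonneg _) hL 2
    have h9 : 69 / 100 * ε ^ 2 ≤ ‖(q : ℂ) - t‖ ^ 2 := by
      rw [h4]
      exact num_aux hs0.le hs1.le h5 h6 h7 (sq_nonneg _)
    have hqi := im_of_norm h3
    rw [coe_im] at hqi
    have hqp := q.im_pos
    have h10 : ‖(t : ℂ) - q‖ ^ 2 ≤ 28 / 100 * ε ^ 2 * q.im := by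
      have := hge.trans hval
      unfold cmp at this
      rwa [div_le_iff₀ hqp] at this
    rw [norm_sub_rev] at h10
    exact num_aux2 hε h9 h10 hqi.2

end IsPatch

end Pool.Agent.Q326.PV
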