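import Pool.Agent.Q326.PV.Patch2

/-!
# Graph distances inside the patch
-/

namespace Pool.Agent.Q326.PV

open UpperHalfPlane Set

/-- Truncation at height `m`. -/
def clip (m f : ℤ) : ℤ := max (-m) (min m f)

namespace IsPatch

variable {S : Set ℍ} {c ε : ℝ} {M : ℕ} {v : ℤ → ℤ → ℍ}

/-- The truncated label of a vertex. -/
noncomputable def lab (S : Set ℍ) (M : ℕ) (v : ℤ → ℤ → ℍ) (F : ℤ → ℤ → ℤ) (r : S) : ℤ :=
  open Classical in
  if h : ∃ p : ℤ × ℤ, |p.1| ≤ M ∧ |p.2| ≤ M ∧ (r : ℍ) = v p.1 p.2 then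
    clip (M - max |h.choose.1| |h.choose.2|) (F h.choose.1 h.choose.2) else 0

theorem lab_eq (h : IsPatch S c ε M v) (F : ℤ → ℤ → ℤ) {r : S} {a b : ℤ} (ha : |a| ≤ M)
    (hb : |b| ≤ M) (hr : (r : ℍ) = v a b) : lab S M v F r = clip (M - max |a| |b|) (F a b) := by
  have hex : ∃ p : ℤ × ℤ, |p.1| ≤ M ∧ |p.2| ≤ M ∧ (r : ℍ) = v p.1 p.2 := ⟨(a, b), ha, hb, hr⟩
  unfold lab
  rw [dif_pos hex]
  obtain ⟨h1, h2, h3⟩ := hex.choose_spec
  obtain ⟨h4, h5⟩ := h.inj ha hb h1 h2 (by rw [← h3, hr])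
  rw [h4, h5]

theorem lab_zero (h : IsPatch S c ε M v) (F : ℤ → ℤ → ℤ) {r : S}
    (hr : ¬ ∃ a b : ℤ, |a| + 1 ≤ M ∧ |b| + 1 ≤ M ∧ (r : ℍ) = v a b) : lab S M v F r = 0 := by
  by_cases hex : ∃ p : ℤ × ℤ, |p.1| ≤ M ∧ |p.2| ≤ M ∧ (r : ℍ) = v p.1 p.2
  · obtain ⟨⟨a, b⟩, h1, h2, h3⟩ := hex
    simp only at h1 h2 h3
    rw [h.lab_eq F h1 h2 h3]
    have h4 : (M : ℤ) - max |a| |b| = 0 := by
      by_contra hne
      apply hr
      refine ⟨a, b, ?_, ?_, h3⟩
      · have := le_max_left |a| |b|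
        have := max_le h1 h2
        omega
      · have := le_max_right |a| |b|
        have := max_le h1 h2
        omega
    rw [h4]
    unfold clip
    omega
  · unfold lab
    rw [dif_neg hex]

theorem six_abs {m n : ℤ} (h : Six m n) : |m| ≤ 1 ∧ |n| ≤ 1 := by
  rw [abs_le, abs_le]
  unfold Six at h
  omega

theorem clip_lip {m m' f f' : ℤ} (h1 : |m - m'| ≤ 1) (h2 : |f - f'| ≤ 1) :
    |clip m f - clip m' f'| ≤ 1 := by
  rw [abs_le] at *
  unfold clip
  omega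

theorem lab_step (h : IsPatch S c ε M v) {F : ℤ → ℤ → ℤ}
    (hF : ∀ a b m n, Six m n → |F a b - F (a + m) (b + n)| ≤ 1) {u r : S} {a b : ℤ}
    (ha : |a| + 1 ≤ M) (hb : |b| + 1 ≤ M) (hu : (u : ℍ) = v a b)
    (hadj : (vorGraph S).Adj u r) : |lab S M v F u - lab S M v F r| ≤ 1 := by
  obtain ⟨m, n, hsix, ham, hbn, hr⟩ := h.adj_six ha hb hu hadj
  have ha' : |a| ≤ M := by omega
  have hb' : |b| ≤ M := by omega
  rw [h.lab_eq F ha' hb' hu, h.lab_eq F ham hbn hr]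
  apply clip_lip _ (hF a b m n hsix)
  obtain ⟨h1, h2⟩ := six_abs hsix
  have h3 : |(|a| - |a + m|)| ≤ 1 := by
    refine (abs_abs_sub_abs_le a (a + m)).trans ?_
    rw [show a - (a + m) = -m by ring, abs_neg]
    exact h1
  have h4 : |(|b| - |b + n|)| ≤ 1 := by
    refine (abs_abs_sub_abs_le b (b + n)).trans ?_
    rw [show b - (b + n) = -n by ring, abs_neg]
    exact h2
  rw [abs_le] at h3 h4 ⊢
  omega

theorem lab_lip (h : IsPatch S c ε M v) {F : ℤ → ℤ → ℤ}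
    (hF : ∀ a b m n, Six m n → |F a b - F (a + m) (b + n)| ≤ 1) (u r : S)
    (hadj : (vorGraph S).Adj u r) : |lab S M v F u - lab S M v F r| ≤ 1 := by
  by_cases hu : ∃ a b : ℤ, |a| + 1 ≤ M ∧ |b| + 1 ≤ M ∧ (u : ℍ) = v a b
  · obtain ⟨a, b, ha, hb, hu⟩ := hu
    exact h.lab_step hF ha hb hu hadj
  by_cases hr : ∃ a b : ℤ, |a| + 1 ≤ M ∧ |b| + 1 ≤ M ∧ (r : ℍ) = v a b
  · obtain ⟨a, b, ha, hb, hr⟩ := hr
    rw [abs_sub_comm]
    exact h.lab_step hF ha hb hr hadj.symm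
  rw [h.lab_zero F hu, h.lab_zero F hr]
  norm_num

theorem dist_right (h : IsPatch S c ε M v) (hS : LocFin S) (hc : (vorGraph S).Connected)
    {a b : ℤ} (ha : |a| ≤ M) (hb : |b| ≤ M) (i : ℕ) : ∀ (x y : S), (x : ℍ) = v a b →
      (y : ℍ) = v (a + i) b → |a + i| ≤ M → (vorGraph S).dist x y ≤ i := by
  induction i with
  | zero =>
    intro x y hx hy _
    have : x = y := Subtype.ext (by rw [hx, hy]; simp)
    rw [this, SimpleGraph.dist_self]
  | succ i ih =>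
    intro x y hx hy hai
    have hai' : |a + i| ≤ M := by
      rw [abs_le] at ha hai ⊢
      push_cast at hai
      omega
    have h1 := ih x ⟨v (a + i) b, h.mem _ _ hai' hb⟩ hx rfl hai'
    have h2 := h.adj_of_six (a := a + i) (b := b) (m := 1) (n := 0) (by simp [Six]) hai' hb
      (by push_cast at hai; rwa [add_assoc]) (by rwa [add_zero]) hS
    have h3 : (⟨v (a + i + 1) (b + 0), h.mem _ _ (by push_cast at hai; rwa [add_assoc])
        (by rwa [add_zero])⟩ : S) = y := by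
      apply Subtype.ext
      rw [hy]
      push_cast
      rw [add_zero, add_assoc]
    rw [h3] at h2
    have h4 := SimpleGraph.dist_eq_one_iff_adj.2 h2
    have h5 := hc.dist_triangle (u := x) (v := ⟨v (a + i) b, h.mem _ _ hai' hb⟩) (w := y)
    omega

theorem dist_up (h : IsPatch S c ε M v) (hS : LocFin S) (hc : (vorGraph S).Connected)
    {a b : ℤ} (ha : |a| ≤ M) (hb : |b| ≤ M) (i : ℕ) : ∀ (x y : S), (x : ℍ) = v a b →
      (y : ℍ) = v a (b + i) → |b + i| ≤ M → (vorGraph S).dist x y ≤ i := by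
  induction i with
  | zero =>
    intro x y hx hy _
    have : x = y := Subtype.ext (by rw [hx, hy]; simp)
    rw [this, SimpleGraph.dist_self]
  | succ i ih =>
    intro x y hx hy hai
    have hai' : |b + i| ≤ M := by
      rw [abs_le] at hb hai ⊢
      push_cast at hai
      omega
    have h1 := ih x ⟨v a (b + i), h.mem _ _ ha hai'⟩ hx rfl hai'
    have h2 := h.adj_of_six (a := a) (b := b + i) (m := 0) (n := 1) (by simp [Six]) ha hai'
      (by rwa [add_zero]) (by push_cast at hai; rwa [add_assoc]) hS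
    have h3 : (⟨v (a + 0) (b + i + 1), h.mem _ _ (by rwa [add_zero])
        (by push_cast at hai; rwa [add_assoc])⟩ : S) = y := by
      apply Subtype.ext
      rw [hy]
      push_cast
      rw [add_zero, add_assoc]
    rw [h3] at h2
    have h4 := SimpleGraph.dist_eq_one_iff_adj.2 h2
    have h5 := hc.dist_triangle (u := x) (v := ⟨v a (b + i), h.mem _ _ ha hai'⟩) (w := y)
    omega

theorem exists_not_thin (h : IsPatch S c ε M v) (hS : LocFin S) (k : ℕ) (hk : 3 * k ≤ M)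
    (x : S) {δ : ℝ} (hδ : 4 * δ < k) :
    ∃ (y z : S) (p : (vorGraph S).Walk x y) (q : (vorGraph S).Walk y z)
      (r : (vorGraph S).Walk z x), IsGeodesic (vorGraph S) p ∧ IsGeodesic (vorGraph S) q ∧
        IsGeodesic (vorGraph S) r ∧ ¬ IsThin (vorGraph S) δ p q r := by
  have hc := vorGraph_connected hS ⟨x, x.2⟩
  have hk0 : |(0 : ℤ)| ≤ M := by simp
  have hk1 : |(k : ℤ)| ≤ M := by rw [abs_le]; omega
  have hk2 : |(-k : ℤ)| ≤ M := by rw [abs_le]; omega
  set y : S := ⟨v (-k) (-k), h.mem _ _ hk2 hk2⟩ with hy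
  set z : S := ⟨v k k, h.mem _ _ hk1 hk1⟩ with hz
  set c0 : S := ⟨v k (-k), h.mem _ _ hk1 hk2⟩ with hc0
  set c1 : S := ⟨v (-k) k, h.mem _ _ hk2 hk1⟩ with hc1
  set c2 : S := ⟨v 0 0, h.mem _ _ hk0 hk0⟩ with hc2
  have e1 : (-k : ℤ) + ((2 * k : ℕ) : ℤ) = k := by push_cast; ring
  have e2 : (-k : ℤ) + (k : ℕ) = 0 := by ring
  have e3 : (0 : ℤ) + (k : ℕ) = k := by ring
  have F1 : ∀ a b m n : ℤ, Six m n → |(a + b) - ((a + m) + (b + n))| ≤ 1 := by
    intro a b m n hs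
    rw [abs_le]
    unfold Six at hs
    omega
  have F2 : ∀ a b m n : ℤ, Six m n → |a - (a + m)| ≤ 1 := by
    intro a b m n hs
    rw [abs_le]
    unfold Six at hs
    omega
  have L1 := le_dist_of_lipschitz hc (lab S M v fun a b => a + b) (h.lab_lip F1)
  have L2 := le_dist_of_lipschitz hc (lab S M v fun a _ => a) (h.lab_lip F2)
  have kabs : |(k : ℤ)| = k := abs_of_nonneg (by positivity)
  have kabs' : |(-k : ℤ)| = k := by rw [abs_neg, kabs]
  have hyz : 4 * k ≤ (vorGraph S).dist y z := by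
    have h1 := L1 y z
    rw [h.lab_eq _ hk2 hk2 rfl, h.lab_eq _ hk1 hk1 rfl, kabs, kabs'] at h1
    have h2 := (abs_le.1 h1).1
    unfold clip at h2
    omega
  have hy0 : (vorGraph S).dist y c0 ≤ 2 * k := h.dist_right hS hc hk2 hk2 (2 * k) y c0 rfl
    (by rw [e1]) (by rw [e1]; exact hk1)
  have hy1 : (vorGraph S).dist y c1 ≤ 2 * k := h.dist_up hS hc hk2 hk2 (2 * k) y c1 rfl
    (by rw [e1]) (by rw [e1]; exact hk1)
  have hy2 : (vorGraph S).dist y c2 ≤ 2 * k := by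
    have h1 := h.dist_right hS hc hk2 hk2 k y ⟨v 0 (-k), h.mem _ _ hk0 hk2⟩ rfl
      (by rw [e2]) (by rw [e2]; exact hk0)
    have h2 := h.dist_up hS hc hk0 hk2 k ⟨v 0 (-k), h.mem _ _ hk0 hk2⟩ c2 rfl
      (by rw [e2]) (by rw [e2]; exact hk0)
    have h3 := hc.dist_triangle (u := y) (v := ⟨v 0 (-k), h.mem _ _ hk0 hk2⟩) (w := c2)
    omega
  have hz0 : (vorGraph S).dist c0 z ≤ 2 * k := h.dist_up hS hc hk1 hk2 (2 * k) c0 z rfl
    (by rw [e1]) (by rw [e1]; exact hk1)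
  have hz1 : (vorGraph S).dist c1 z ≤ 2 * k := h.dist_right hS hc hk2 hk1 (2 * k) c1 z rfl
    (by rw [e1]) (by rw [e1]; exact hk1)
  have hz2 : (vorGraph S).dist c2 z ≤ 2 * k := by
    have h1 := h.dist_right hS hc hk0 hk0 k c2 ⟨v k 0, h.mem _ _ hk1 hk0⟩ rfl
      (by rw [e3]) (by rw [e3]; exact hk1)
    have h2 := h.dist_up hS hc hk1 hk0 k ⟨v k 0, h.mem _ _ hk1 hk0⟩ z rfl
      (by rw [e3]) (by rw [e3]; exact hk1)
    have h3 := hc.dist_triangle (u := c2) (v := ⟨v k 0, h.mem _ _ hk1 hk0⟩) (w := z)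
    omega
  have h01 : k ≤ (vorGraph S).dist c0 c1 := by
    have h1 := L2 c0 c1
    rw [h.lab_eq _ hk1 hk2 rfl, h.lab_eq _ hk2 hk1 rfl, kabs, kabs'] at h1
    have h2 := (abs_le.1 h1).2
    unfold clip at h2
    omega
  have h02 : k ≤ (vorGraph S).dist c0 c2 := by
    have h1 := L2 c0 c2
    rw [h.lab_eq _ hk1 hk2 rfl, h.lab_eq _ hk0 hk0 rfl, kabs, kabs', abs_zero] at h1
    have h2 := (abs_le.1 h1).2
    unfold clip at h2
    omega
  have h12 : k ≤ (vorGraph S).dist c1 c2 := by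
    have h1 := L2 c1 c2
    rw [h.lab_eq _ hk2 hk1 rfl, h.lab_eq _ hk0 hk0 rfl, kabs, kabs', abs_zero] at h1
    have h2 := (abs_le.1 h1).1
    unfold clip at h2
    omega
  obtain ⟨p, q, r, hp, hq, hr, hthin⟩ := PV.exists_not_thin hc k x y z ![c0, c1, c2] hyz
    (by intro i; fin_cases i <;> assumption) (by intro i; fin_cases i <;> assumption)
    (by
      intro i j hij
      have h10 := h01
      have h20 := h02
      have h21 := h12
      rw [SimpleGraph.dist_comm] at h10 h20 h21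
      fin_cases i <;> fin_cases j <;> first | exact absurd rfl hij | assumption) hδ
  exact ⟨y, z, p, q, r, hp, hq, hr, hthin⟩

end IsPatch

end Pool.Agent.Q326.PV
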