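import Pool.Agent.Q326.PV.Defs

/-!
# Elementary geometry of the hyperbolic plane: half-planes and equidistant points
-/

namespace Pool.Agent.Q326.PV

open UpperHalfPlane

/-- The affine function (of `re z` and `|z|^2`) which compares the distances to `v`. -/
noncomputable def aff (v z : ℍ) : ℝ :=
  (z.re ^ 2 + z.im ^ 2 - 2 * z.re * v.re + (v.re ^ 2 + v.im ^ 2)) / v.im

theorem two_im_cosh (v z : ℍ) : 2 * z.im * Real.cosh (dist z v) = aff v z := by
  rw [cosh_dist', aff]
  have h1 := z.im_pos
  have h2 := v.im_pos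
  field_simp
  ring

theorem dist_le_iff (z p q : ℍ) : dist z p ≤ dist z q ↔ aff p z ≤ aff q z := by
  rw [← two_im_cosh, ← two_im_cosh]
  have h1 : 0 < 2 * z.im := by have := z.im_pos; linarith
  rw [mul_le_mul_iff_right₀ h1, Real.cosh_le_cosh, abs_of_nonneg dist_nonneg,
    abs_of_nonneg dist_nonneg]

theorem dist_lt_iff (z p q : ℍ) : dist z p < dist z q ↔ aff p z < aff q z := by
  rw [← not_le, ← not_le, dist_le_iff]

theorem dist_eq_iff (z p q : ℍ) : dist z p = dist z q ↔ aff p z = aff q z := by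
  rw [le_antisymm_iff, le_antisymm_iff, dist_le_iff, dist_le_iff]

theorem null_vec {x y v1 v2 v3 : ℝ} (hy : 0 < y)
    (hVa : v1 * ((x ^ 2 + y ^ 2) / y) + v3 * (1 / y) - 2 * v2 * (x / y) = 0)
    (hVV : v1 * v3 - v2 ^ 2 = 0) : v1 = 0 ∧ v2 = 0 ∧ v3 = 0 := by
  have h3 : v3 = 2 * v2 * x - v1 * (x ^ 2 + y ^ 2) := by
    have := hVa
    field_simp at this
    linarith
  have h4 : (v2 - v1 * x) ^ 2 + (v1 * y) ^ 2 = 0 := by
    rw [h3] at hVV
    linear_combination -hVV
  have h5 : v1 * y = 0 := by
    have h7 := sq_nonneg (v2 - v1 * x)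
    have h8 := sq_nonneg (v1 * y)
    exact pow_eq_zero_iff (two_ne_zero) |>.1 (by linarith)
  have h6 : v2 - v1 * x = 0 := by
    have h7 := sq_nonneg (v2 - v1 * x)
    have h8 := sq_nonneg (v1 * y)
    exact pow_eq_zero_iff (two_ne_zero) |>.1 (by linarith)
  have h7 : v1 = 0 := (mul_eq_zero.1 h5).resolve_right hy.ne'
  have h8 : v2 = 0 := by rw [h7] at h6; linarith
  exact ⟨h7, h8, by rw [h3, h7, h8]; ring⟩

/-- Half-planes are convex: the comparison of the distances to two points passes to a point of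
the segment. -/
theorem cosh_seg {a b c : ℍ} (h : c ∈ seg a b) :
    ∃ l m : ℝ, 0 ≤ l ∧ 0 ≤ m ∧ ∀ p : ℍ,
      Real.cosh (dist c p) = l * Real.cosh (dist a p) + m * Real.cosh (dist b p) := by
  have hs : dist a c + dist c b = dist a b := h
  rcases eq_or_ne a b with rfl | hab
  · have h1 : dist a c = 0 := by
      have h2 := dist_nonneg (x := a) (y := c)
      have h3 := dist_nonneg (x := c) (y := a)
      rw [dist_self] at hs
      linarith
    have h4 := dist_eq_zero.1 h1
    subst h4
    exact ⟨1, 0, by norm_num, le_rfl, fun p => by ring⟩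
  set m : ℝ := dist a c with hm
  set n : ℝ := dist c b with hn
  have hm0 : 0 ≤ m := dist_nonneg
  have hn0 : 0 ≤ n := dist_nonneg
  have hpos : 0 < m + n := by rw [hs]; exact dist_pos.2 hab
  have hS : 0 < Real.sinh (m + n) := Real.sinh_pos_iff.2 hpos
  have hcab : Real.cosh (m + n) = ((a.re - b.re) ^ 2 + a.im ^ 2 + b.im ^ 2) / (2 * a.im * b.im) := by
    rw [hs, cosh_dist']
  have hcac : Real.cosh m = ((a.re - c.re) ^ 2 + a.im ^ 2 + c.im ^ 2) / (2 * a.im * c.im) := by
    rw [hm, cosh_dist']
  have hccb : Real.cosh n = ((c.re - b.re) ^ 2 + c.im ^ 2 + b.im ^ 2) / (2 * c.im * b.im) := by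
    rw [hn, cosh_dist']
  have ha := a.im_pos
  have hb := b.im_pos
  have hc := c.im_pos
  -- the linear relation between the three vectors
  set S : ℝ := Real.sinh (m + n) with hSdef
  set l : ℝ := Real.sinh n / S with hl
  set k : ℝ := Real.sinh m / S with hk
  have hl0 : 0 ≤ l := div_nonneg (Real.sinh_nonneg_iff.2 hn0) hS.le
  have hk0 : 0 ≤ k := div_nonneg (Real.sinh_nonneg_iff.2 hm0) hS.le
  have e1 : Real.cosh m = l + k * Real.cosh (m + n) := by
    rw [hl, hk]
    field_simp
    rw [hSdef, Real.sinh_add, Real.cosh_add]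
    have := Real.cosh_sq m
    linear_combination (Real.sinh n) * this
  have e4 : l * Real.cosh m + k * Real.cosh n = 1 := by
    rw [hl, hk]
    field_simp
    rw [hSdef, Real.sinh_add]
    ring
  have e3 : l * l + k * k + 2 * l * k * Real.cosh (m + n) = 1 := by
    have : l * (l + k * Real.cosh (m + n)) + k * (k + l * Real.cosh (m + n)) = 1 := by
      have e1' : Real.cosh n = k + l * Real.cosh (m + n) := by
        rw [hl, hk]
        field_simp
        rw [hSdef, Real.sinh_add, Real.cosh_add]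
        have := Real.cosh_sq n
        linear_combination (Real.sinh m) * this
      rw [← e1, ← e1']
      exact e4
    linarith
  -- the three coordinates of the difference
  set v1 : ℝ := 1 / c.im - l * (1 / a.im) - k * (1 / b.im) with hv1
  set v2 : ℝ := c.re / c.im - l * (a.re / a.im) - k * (b.re / b.im) with hv2
  set v3 : ℝ := (c.re ^ 2 + c.im ^ 2) / c.im - l * ((a.re ^ 2 + a.im ^ 2) / a.im)
    - k * ((b.re ^ 2 + b.im ^ 2) / b.im) with hv3
  have hVa : v1 * ((a.re ^ 2 + a.im ^ 2) / a.im) + v3 * (1 / a.im) - 2 * v2 * (a.re / a.im) = 0 := by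
    have h1 : v1 * ((a.re ^ 2 + a.im ^ 2) / a.im) + v3 * (1 / a.im) - 2 * v2 * (a.re / a.im)
        = 2 * (Real.cosh m - l - k * Real.cosh (m + n)) := by
      rw [hcab, hcac, hv1, hv2, hv3]
      field_simp
      ring
    rw [h1, e1]
    ring
  have hVV : v1 * v3 - v2 ^ 2 = 0 := by
    have h1 : v1 * v3 - v2 ^ 2 = 1 + (l * l + k * k + 2 * l * k * Real.cosh (m + n))
        - 2 * (l * Real.cosh m + k * Real.cosh n) := by
      rw [hcab, hcac, hccb, hv1, hv2, hv3]
      field_simp
      ring
    rw [h1, e3, e4]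
    ring
  obtain ⟨hz1, hz2, hz3⟩ := null_vec ha hVa hVV
  refine ⟨l, k, hl0, hk0, fun p => ?_⟩
  have hp := p.im_pos
  have h1 : Real.cosh (dist c p) - l * Real.cosh (dist a p) - k * Real.cosh (dist b p)
      = (v1 * ((p.re ^ 2 + p.im ^ 2) / p.im) + v3 * (1 / p.im) - 2 * v2 * (p.re / p.im)) / 2 := by
    rw [cosh_dist', cosh_dist', cosh_dist', hv1, hv2, hv3]
    field_simp
    ring
  rw [hz1, hz2, hz3] at h1
  linarith

theorem dist_le_of_seg {a b c p q : ℍ} (h : c ∈ seg a b) (ha : dist a p ≤ dist a q)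
    (hb : dist b p ≤ dist b q) : dist c p ≤ dist c q := by
  obtain ⟨l, m, hl, hm, hf⟩ := cosh_seg h
  have hc : ∀ x y : ℍ, ∀ x' y' : ℍ, dist x y ≤ dist x' y' ↔
      Real.cosh (dist x y) ≤ Real.cosh (dist x' y') := by
    intro x y x' y'
    rw [Real.cosh_le_cosh, abs_of_nonneg dist_nonneg, abs_of_nonneg dist_nonneg]
  rw [hc] at ha hb ⊢
  rw [hf p, hf q]
  nlinarith [mul_le_mul_of_nonneg_left ha hl, mul_le_mul_of_nonneg_left hb hm]

theorem seg_subset_cell {S : Set ℍ} {a b p : ℍ} (ha : a ∈ cell S p) (hb : b ∈ cell S p) :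
    seg a b ⊆ cell S p := fun _ hc q hq => dist_le_of_seg hc (ha q hq) (hb q hq)

/-- Two distinct points have at most two common equidistant partners: three distinct points are
equidistant from at most one point. -/
theorem equidistant_unique {t t' : ℍ} {r : Fin 3 → ℍ} (hr : Function.Injective r)
    (h : ∀ i j, dist t (r i) = dist t (r j)) (h' : ∀ i j, dist t' (r i) = dist t' (r j)) :
    t = t' := by
  by_contra hne
  set C := Real.cosh (dist t (r 0)) with hC
  set C' := Real.cosh (dist t' (r 0)) with hC'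
  have e : ∀ i, (r i).re ^ 2 + (r i).im ^ 2 - 2 * (r i).re * t.re - 2 * (C * t.im) * (r i).im
      + (t.re ^ 2 + t.im ^ 2) = 0 := by
    intro i
    have h1 : C = Real.cosh (dist t (r i)) := by rw [hC, h 0 i]
    rw [h1, cosh_dist']
    have := t.im_pos
    have := (r i).im_pos
    field_simp
    ring
  have e' : ∀ i, (r i).re ^ 2 + (r i).im ^ 2 - 2 * (r i).re * t'.re
      - 2 * (C' * t'.im) * (r i).im + (t'.re ^ 2 + t'.im ^ 2) = 0 := by
    intro i
    have h1 : C' = Real.cosh (dist t' (r i)) := by rw [hC', h' 0 i]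
    rw [h1, cosh_dist']
    have := t'.im_pos
    have := (r i).im_pos
    field_simp
    ring
  set al := t'.re - t.re with hal
  set be := C' * t'.im - C * t.im with hbe
  have hlin : ∀ i, 2 * (r i).re * al + 2 * (r i).im * be
      = (t'.re ^ 2 + t'.im ^ 2) - (t.re ^ 2 + t.im ^ 2) := by
    intro i
    have h1 := e i
    have h2 := e' i
    rw [hal, hbe]
    linarith
  have hnz : al ^ 2 + be ^ 2 ≠ 0 := by
    intro h0
    have ha : al = 0 := by nlinarith [sq_nonneg al, sq_nonneg be]
    have hb : be = 0 := by nlinarith [sq_nonneg al, sq_nonneg be]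
    have h1 := hlin 0
    rw [ha, hb] at h1
    have h2 : t'.re = t.re := by linarith
    have h3 : t'.im ^ 2 = t.im ^ 2 := by rw [h2] at h1; linarith
    have h4 : t'.im = t.im := by
      have := t.im_pos
      have := t'.im_pos
      nlinarith
    exact hne (UpperHalfPlane.ext (by apply Complex.ext <;> simp [h2, h4])) 
  have hd : ∀ i j, ((r i).re - (r j).re) * al + ((r i).im - (r j).im) * be = 0 := by
    intro i j
    have h1 := hlin i
    have h2 := hlin j
    linarith
  -- the displacement is a multiple of `(-be, al)`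
  have hk : ∀ i j, ∃ k : ℝ, (r i).re - (r j).re = -k * be ∧ (r i).im - (r j).im = k * al := by
    intro i j
    refine ⟨(((r i).im - (r j).im) * al - ((r i).re - (r j).re) * be) / (al ^ 2 + be ^ 2),
      ?_, ?_⟩
    · field_simp
      linear_combination (al) * hd i j
    · field_simp
      linear_combination (be) * hd i j
  have hq : ∀ i j, i ≠ j → -be * ((r i).re + (r j).re - 2 * t.re)
      + al * ((r i).im + (r j).im - 2 * (C * t.im)) = 0 := by
    intro i j hij
    obtain ⟨k, hk1, hk2⟩ := hk i j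
    have hk0 : k ≠ 0 := by
      rintro rfl
      apply hij
      apply hr
      apply UpperHalfPlane.ext
      apply Complex.ext
      · simp at hk1 ⊢; linarith
      · simp at hk2 ⊢; linarith
    have h1 := e i
    have h2 := e j
    have h3 : ((r i).re - (r j).re) * ((r i).re + (r j).re - 2 * t.re)
        + ((r i).im - (r j).im) * ((r i).im + (r j).im - 2 * (C * t.im)) = 0 := by linarith
    rw [hk1, hk2] at h3
    have h4 : k * (-be * ((r i).re + (r j).re - 2 * t.re)
      + al * ((r i).im + (r j).im - 2 * (C * t.im))) = 0 := by linarith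
    exact (mul_eq_zero.1 h4).resolve_left hk0
  have h01 := hq 0 1 (by decide)
  have h02 := hq 0 2 (by decide)
  obtain ⟨k, hk1, hk2⟩ := hk 1 2
  have h3 : -be * ((r 1).re - (r 2).re) + al * ((r 1).im - (r 2).im) = 0 := by linarith
  rw [hk1, hk2] at h3
  have h4 : k * (al ^ 2 + be ^ 2) = 0 := by linarith
  have h5 : k = 0 := (mul_eq_zero.1 h4).resolve_right hnz
  rw [h5] at hk1 hk2
  have : (1 : Fin 3) = 2 := by
    apply hr
    apply UpperHalfPlane.ext
    apply Complex.ext
    · simp at hk1 ⊢; linarith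
    · simp at hk2 ⊢; linarith
  exact absurd this (by decide)

end Pool.Agent.Q326.PV
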