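import Pool.Agent.Q326.PV.Patch3

/-!
# A Poisson process contains patches of every size
-/

namespace Pool.Agent.Q326.PV

open UpperHalfPlane Set MeasureTheory ProbabilityTheory Filter
open scoped NNReal ENNReal Topology

/-- Integers of absolute value at most `M`. -/
abbrev Ix (M : ℕ) : Type := ↥(Finset.Icc (-(M : ℤ)) M)

theorem Ix.abs_le {M : ℕ} (a : Ix M) : |(a : ℤ)| ≤ M := by
  have := Finset.mem_Icc.1 a.2
  rw [_root_.abs_le]
  exact this

/-- The index set of the regions of one window. -/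
abbrev Jx (M : ℕ) : Type := Option (Ix M × Ix M)

/-- The mesh. -/
noncomputable def mesh (M : ℕ) : ℝ := 1 / (100 * (M + 1))

theorem mesh_pos (M : ℕ) : 0 < mesh M := by unfold mesh; positivity

theorem mesh_mul (M : ℕ) : mesh M * (M + 1) = 1 / 100 := by
  unfold mesh
  have : (M : ℝ) + 1 ≠ 0 := by positivity
  field_simp

/-- The regions of the window at the origin, as subsets of the complex plane. -/
noncomputable def Rg (M : ℕ) : Jx M → Set ℂ
  | none => {w | ‖w - ⟨0, 1⟩‖ ≤ 1 / 20 ∧ ∀ p : Ix M × Ix M, mesh M / 100 < ‖w - site 0 (mesh M) p.1 p.2‖}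
  | some p => {w | ‖w - site 0 (mesh M) p.1 p.2‖ ≤ mesh M / 100}

/-- The regions of the `n`-th window. -/
noncomputable def Ag (M : ℕ) (n : ℕ) (j : Jx M) : Set ℍ := {z | (z : ℂ) - (n : ℂ) ∈ Rg M j}

/-- The required numbers of points. -/
def kap {M : ℕ} : Jx M → ℕ
  | none => 0
  | some _ => 1

theorem measurableSet_Rg (M : ℕ) (j : Jx M) : MeasurableSet (Rg M j) := by
  cases j with
  | none =>
    have h : Rg M none = {w : ℂ | ‖w - ⟨0, 1⟩‖ ≤ 1 / 20} ∩ ⋂ p : Ix M × Ix M,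
        {w : ℂ | mesh M / 100 < ‖w - site 0 (mesh M) p.1 p.2‖} := by
      ext w
      simp [Rg]
    rw [h]
    refine MeasurableSet.inter (measurableSet_le (by fun_prop) measurable_const)
      (MeasurableSet.iInter fun p => measurableSet_lt measurable_const (by fun_prop))
  | some p => exact measurableSet_le (by fun_prop) measurable_const

theorem measurableSet_Ag (M n : ℕ) (j : Jx M) : MeasurableSet (Ag M n j) :=
  (measurable_coe.sub_const _) (measurableSet_Rg M j)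

theorem site_zero_add (ε : ℝ) (n : ℕ) (a b : ℤ) : site n ε a b = site 0 ε a b + n := by
  unfold site
  apply Complex.ext
  · simp; ring
  · simp

theorem norm_site_zero {M : ℕ} (p : Ix M × Ix M) :
    ‖site 0 (mesh M) p.1 p.2 - ⟨0, 1⟩‖ ≤ 24 / 1000 := by
  have h1 : site 0 (mesh M) p.1 p.2 - ⟨0, 1⟩ = (mesh M : ℂ) * ev p.1 p.2 := by
    unfold site; ring
  rw [h1, norm_mul, Complex.norm_real, Real.norm_of_nonneg (mesh_pos M).le]
  have h2 : ‖ev p.1 p.2‖ ≤ |(((p.1 : ℤ) : ℝ) + (p.2 : ℤ) / 2)| + |7 / 8 * ((p.2 : ℤ) : ℝ)| :=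
    Complex.norm_le_abs_re_add_abs_im _
  have ha' : |((p.1 : ℤ) : ℝ)| ≤ M := by exact_mod_cast p.1.abs_le
  have hb' : |((p.2 : ℤ) : ℝ)| ≤ M := by exact_mod_cast p.2.abs_le
  have h3 : |(((p.1 : ℤ) : ℝ) + (p.2 : ℤ) / 2)| ≤ M + M / 2 := by
    rw [_root_.abs_le] at *
    constructor <;> linarith
  have h4 : |7 / 8 * ((p.2 : ℤ) : ℝ)| ≤ 7 / 8 * M := by
    rw [_root_.abs_le] at *
    constructor <;> linarith
  have h5 : ‖ev p.1 p.2‖ ≤ 19 / 8 * M := by linarith
  have h6 := mesh_mul M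
  have h7 := mesh_pos M
  have : (0 : ℝ) ≤ M := Nat.cast_nonneg M
  nlinarith [mul_le_mul_of_nonneg_left h5 h7.le]

theorem mesh_le (M : ℕ) : mesh M ≤ 1 / 100 := by
  have h6 := mesh_mul M
  have h7 := mesh_pos M
  have : (0 : ℝ) ≤ M := Nat.cast_nonneg M
  nlinarith

theorem Rg_subset (M : ℕ) (j : Jx M) : Rg M j ⊆ {w : ℂ | ‖w - ⟨0, 1⟩‖ ≤ 1 / 20} := by
  cases j with
  | none => exact fun w hw => hw.1
  | some p =>
    intro w hw
    have h1 : ‖w - site 0 (mesh M) p.1 p.2‖ ≤ mesh M / 100 := hw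
    have h2 := norm_site_zero p
    have h3 := mesh_le M
    have h4 : w - ⟨0, 1⟩ = (w - site 0 (mesh M) p.1 p.2)
      + (site 0 (mesh M) p.1 p.2 - ⟨0, 1⟩) := by ring
    change ‖w - ⟨0, 1⟩‖ ≤ 1 / 20
    rw [h4]
    have := norm_add_le (w - site 0 (mesh M) p.1 p.2) (site 0 (mesh M) p.1 p.2 - ⟨0, 1⟩)
    linarith

theorem Rg_im {M : ℕ} {j : Jx M} {w : ℂ} (hw : w ∈ Rg M j) : 0 < w.im := by
  have h := (IsPatch.im_of_norm (Rg_subset M j hw)).1
  linarith

theorem Ag_subset (M n : ℕ) (j : Jx M) :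
    Ag M n j ⊆ {z : ℍ | ‖(z : ℂ) - ⟨n, 1⟩‖ ≤ 1 / 20} := by
  intro z hz
  have h := Rg_subset M j hz
  have h1 : (z : ℂ) - ⟨n, 1⟩ = (z : ℂ) - n - ⟨0, 1⟩ := by
    apply Complex.ext <;> simp
  change ‖(z : ℂ) - ⟨n, 1⟩‖ ≤ 1 / 20
  rw [h1]
  exact h

theorem isCompact_window (n : ℕ) : IsCompact {z : ℍ | ‖(z : ℂ) - ⟨n, 1⟩‖ ≤ 1 / 20} := by
  have h : {z : ℍ | ‖(z : ℂ) - ⟨n, 1⟩‖ ≤ 1 / 20}
      = UpperHalfPlane.coe ⁻¹' (Metric.closedBall (⟨n, 1⟩ : ℂ) (1 / 20)) := by
    ext z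
    simp [dist_eq_norm]
  rw [h]
  apply isOpenEmbedding_coe.isInducing.isCompact_preimage_iff _ |>.2 (isCompact_closedBall _ _)
  intro w hw
  rw [Metric.mem_closedBall, dist_eq_norm] at hw
  have h1 := (IsPatch.im_of_norm hw).1
  exact ⟨⟨w, by linarith⟩, rfl⟩

theorem isBounded_Ag (M n : ℕ) (j : Jx M) : Bornology.IsBounded (Ag M n j) :=
  (isCompact_window n).isBounded.subset (Ag_subset M n j)

theorem volume_Ag_ne_top (M n : ℕ) (j : Jx M) : volume (Ag M n j) ≠ ∞ :=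
  ((measure_mono (Ag_subset M n j)).trans_lt (isCompact_window n).measure_lt_top).ne

theorem coe_image_Ag (M n : ℕ) (j : Jx M) :
    (UpperHalfPlane.coe '' Ag M n j) = (fun w : ℂ => w - (n : ℂ)) ⁻¹' (Rg M j) := by
  ext w
  simp only [mem_image, mem_preimage]
  constructor
  · rintro ⟨z, hz, rfl⟩
    exact hz
  · intro hw
    have h1 : 0 < w.im := by
      have := Rg_im hw
      simpa using this
    exact ⟨⟨w, h1⟩, hw, rfl⟩

theorem volume_Ag (M n : ℕ) (j : Jx M) :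
    volume (Ag M n j) = ∫⁻ z in Rg M j, ↑((1 / ‖z.im‖₊) ^ 2 : ℝ≥0) := by
  rw [volume_eq_lintegral, coe_image_Ag]
  have h := (measurePreserving_sub_right (volume : Measure ℂ) (n : ℂ)).setLIntegral_comp_preimage
    (measurableSet_Rg M j) (f := fun z : ℂ => ((((1 / ‖z.im‖₊) ^ 2 : ℝ≥0)) : ℝ≥0∞))
    (by fun_prop)
  rw [← h]
  simp

theorem volume_Ag_pos (M n : ℕ) (p : Ix M × Ix M) : 0 < volume (Ag M n (some p)) := by
  rw [volume_Ag, setLIntegral_pos_iff (by fun_prop)]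
  have h1 : Metric.closedBall (site 0 (mesh M) p.1 p.2) (mesh M / 100) ⊆
      (Function.support fun z : ℂ => ((((1 / ‖z.im‖₊) ^ 2 : ℝ≥0)) : ℝ≥0∞)) ∩ Rg M (some p) := by
    intro w hw
    rw [Metric.mem_closedBall, dist_eq_norm] at hw
    have h2 : w ∈ Rg M (some p) := hw
    refine ⟨?_, h2⟩
    have h3 := Rg_im h2
    simp only [Function.mem_support, ne_eq, ENNReal.coe_eq_zero, one_div, inv_pow, inv_eq_zero,
      pow_eq_zero_iff, nnnorm_eq_zero, two_ne_zero, not_false_eq_true]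
    exact h3.ne'
  refine lt_of_lt_of_le ?_ (measure_mono h1)
  exact Metric.measure_closedBall_pos _ _ (by have := mesh_pos M; positivity)

theorem disjoint_Ag {M : ℕ} {n n' : ℕ} {j j' : Jx M} (h : (n, j) ≠ (n', j')) :
    Disjoint (Ag M n j) (Ag M n' j') := by
  rw [Set.disjoint_left]
  intro z hz hz'
  by_cases hn : n = n'
  · subst hn
    have hj : j ≠ j' := fun hj => h (by rw [hj])
    change (z : ℂ) - n ∈ Rg M j at hz
    change (z : ℂ) - n ∈ Rg M j' at hz'
    rcases j with _ | p <;> rcases j' with _ | p'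
    · exact hj rfl
    · exact absurd hz' (not_le.2 (hz.2 p'))
    · exact absurd hz (not_le.2 (hz'.2 p))
    · have h1 : ‖(z : ℂ) - n - site 0 (mesh M) p.1 p.2‖ ≤ mesh M / 100 := hz
      have h2 : ‖(z : ℂ) - n - site 0 (mesh M) p'.1 p'.2‖ ≤ mesh M / 100 := hz'
      have h3 : (mesh M : ℂ) * ev ((p'.1 : ℤ) - p.1) ((p'.2 : ℤ) - p.2)
          = ((z : ℂ) - n - site 0 (mesh M) p.1 p.2) - ((z : ℂ) - n - site 0 (mesh M) p'.1 p'.2) := by
        have e1 : ev (p'.1 : ℤ) p'.2 = ev (p.1 : ℤ) p.2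
            + ev ((p'.1 : ℤ) - p.1) ((p'.2 : ℤ) - p.2) := by
          rw [← ev_add]
          congr 1 <;> ring
        unfold site
        rw [e1]
        ring
      have h4 : 1 ≤ ‖ev ((p'.1 : ℤ) - p.1) ((p'.2 : ℤ) - p.2)‖ := by
        apply one_le_norm_ev
        rintro ⟨h5, h6⟩
        apply hj
        congr 1
        apply Prod.ext
        · apply Subtype.ext; omega
        · apply Subtype.ext; omega
      have h5 := norm_sub_le ((z : ℂ) - n - site 0 (mesh M) p.1 p.2)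
        ((z : ℂ) - n - site 0 (mesh M) p'.1 p'.2)
      rw [← h3, norm_mul, Complex.norm_real, Real.norm_of_nonneg (mesh_pos M).le] at h5
      have := mesh_pos M
      nlinarith
  · have h1 : ‖(z : ℂ) - ⟨n, 1⟩‖ ≤ 1 / 20 := Ag_subset M n j hz
    have h2 : ‖(z : ℂ) - ⟨n', 1⟩‖ ≤ 1 / 20 := Ag_subset M n' j' hz'
    have h3 := (Complex.abs_re_le_norm _).trans h1
    have h4 := (Complex.abs_re_le_norm _).trans h2
    simp only [Complex.sub_re, coe_re] at h3 h4
    rw [_root_.abs_le] at h3 h4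
    have h5 : ((n : ℝ) - n') < 1 := by linarith
    have h6 : (-1 : ℝ) < (n : ℝ) - n' := by linarith
    have h7 : ((n : ℤ) - n') < 1 := by exact_mod_cast h5
    have h8 : (-1 : ℤ) < (n : ℤ) - n' := by exact_mod_cast h6
    omega

/-- The event that the `n`-th window contains a patch. -/
def Ev {Ω : Type*} (X : Ω → Set ℍ) (M n : ℕ) : Set Ω :=
  ⋂ j : Jx M, (fun ω => count (X ω) (Ag M n j)) ⁻¹' {kap j}

/-- On the event there is a patch. -/
theorem patch_of_mem {Ω : Type*} {X : Ω → Set ℍ} {M n : ℕ} {ω : Ω}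
    (hX : LocFin (X ω)) (h : ω ∈ Ev X M n) :
    ∃ v : ℤ → ℤ → ℍ, IsPatch (X ω) n (mesh M) M v := by
  have hcount : ∀ j : Jx M, (X ω ∩ Ag M n j).ncard = kap j := fun j => mem_iInter.1 h j
  have hv : ∀ a b : ℤ, ∃ z : ℍ, |a| ≤ M → |b| ≤ M → z ∈ X ω ∧
      ‖(z : ℂ) - site n (mesh M) a b‖ ≤ mesh M / 100 ∧ ∀ r ∈ X ω,
        ‖(r : ℂ) - site n (mesh M) a b‖ ≤ mesh M / 100 → r = z := by
    intro a b
    by_cases hab : |a| ≤ M ∧ |b| ≤ M
    · obtain ⟨ha, hb⟩ := hab
      rw [abs_le] at ha hb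
      set p : Ix M × Ix M := (⟨a, Finset.mem_Icc.2 ha⟩, ⟨b, Finset.mem_Icc.2 hb⟩) with hp
      have h1 : (X ω ∩ Ag M n (some p)).ncard = 1 := hcount (some p)
      obtain ⟨z, hz⟩ := ncard_eq_one.1 h1
      have hmem : ∀ r : ℍ, r ∈ Ag M n (some p) ↔
          ‖(r : ℂ) - site n (mesh M) a b‖ ≤ mesh M / 100 := by
        intro r
        change ‖(r : ℂ) - n - site 0 (mesh M) a b‖ ≤ mesh M / 100 ↔ _
        rw [site_zero_add, show (r : ℂ) - n - site 0 (mesh M) a b
          = (r : ℂ) - (site 0 (mesh M) a b + n) by ring]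
      have hzm : z ∈ X ω ∩ Ag M n (some p) := by rw [hz]; exact mem_singleton z
      refine ⟨z, fun _ _ => ⟨hzm.1, (hmem z).1 hzm.2, fun r hr hr' => ?_⟩⟩
      have : r ∈ X ω ∩ Ag M n (some p) := ⟨hr, (hmem r).2 hr'⟩
      rw [hz] at this
      exact this
    · exact ⟨UpperHalfPlane.I, fun ha hb => absurd ⟨ha, hb⟩ hab⟩
  choose v hv using hv
  refine ⟨v, mesh_pos M, (mesh_mul M).le, fun a b ha hb => (hv a b ha hb).1,
    fun a b ha hb => (hv a b ha hb).2.1, fun r hr hrW => ?_⟩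
  by_contra hcon
  push Not at hcon
  have h1 : r ∈ X ω ∩ Ag M n none := by
    refine ⟨hr, ?_, fun p => ?_⟩
    · have h1 : (r : ℂ) - n - ⟨0, 1⟩ = (r : ℂ) - ⟨n, 1⟩ := by
        apply Complex.ext <;> simp
      rw [h1]
      exact hrW
    · by_contra hle
      push Not at hle
      have h2 := p.1.abs_le
      have h3 := p.2.abs_le
      apply hcon p.1 p.2 h2 h3
      apply (hv p.1 p.2 h2 h3).2.2 r hr
      rw [site_zero_add, show (r : ℂ) - (site 0 (mesh M) (p.1 : ℤ) (p.2 : ℤ) + n)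
          = (r : ℂ) - n - site 0 (mesh M) p.1 p.2 by ring]
      exact hle
  have h2 : (X ω ∩ Ag M n none).ncard = 0 := hcount none
  rw [ncard_eq_zero (hX _ (isBounded_Ag M n none))] at h2
  rw [h2] at h1
  exact h1

section

variable {Ω : Type*} [MeasurableSpace Ω] {P : Measure Ω} [IsProbabilityMeasure P] {lam : ℝ≥0}
  {X : Ω → Set ℍ}

theorem measurableSet_Ev (hX : IsPoissonProcess P lam X) (M n : ℕ) :
    MeasurableSet (Ev X M n) :=
  MeasurableSet.iInter fun j => hX.measurable _ (measurableSet_Ag M n j) (isBounded_Ag M n j)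
    (measurableSet_singleton _)

/-- The probability of the factors. -/
noncomputable def fac (lam : ℝ≥0) (M : ℕ) (j : Jx M) : ℝ≥0∞ :=
  poissonMeasure (lam * (volume (Ag M 0 j)).toNNReal) {kap j}

theorem prob_fac (hX : IsPoissonProcess P lam X) (M n : ℕ) (j : Jx M) :
    P ((fun ω => count (X ω) (Ag M n j)) ⁻¹' {kap j}) = fac lam M j := by
  rw [← Measure.map_apply (hX.measurable _ (measurableSet_Ag M n j) (isBounded_Ag M n j))
    (measurableSet_singleton _), hX.law _ (measurableSet_Ag M n j) (isBounded_Ag M n j)]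
  unfold fac
  rw [volume_Ag M n j, volume_Ag M 0 j]

theorem fac_ne_zero (hlam : 0 < lam) (M : ℕ) (j : Jx M) : fac lam M j ≠ 0 := by
  unfold fac
  rw [poissonMeasure_singleton]
  apply (ENNReal.ofReal_pos.2 _).ne'
  cases j with
  | none =>
    simp only [kap, pow_zero, Nat.factorial_zero, Nat.cast_one, div_one, mul_one]
    exact Real.exp_pos _
  | some p =>
    simp only [kap, pow_one, Nat.factorial_one, Nat.cast_one, div_one]
    apply mul_pos (Real.exp_pos _)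
    have h1 : 0 < (volume (Ag M 0 (some p))).toNNReal :=
      ENNReal.toNNReal_pos (volume_Ag_pos M 0 p).ne' (volume_Ag_ne_top M 0 _)
    exact_mod_cast mul_pos hlam h1

theorem prob_inter (hX : IsPoissonProcess P lam X) (M : ℕ) (t : Finset ℕ) :
    P (⋂ n ∈ t, Ev X M n) = ∏ _n ∈ t, ∏ j : Jx M, fac lam M j := by
  have hind := hX.indep (↥t × Jx M) (fun q => Ag M q.1 q.2)
    (fun q => measurableSet_Ag M _ _) (fun q => isBounded_Ag M _ _)
    (fun q q' hq => disjoint_Ag (fun h => hq (by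
      obtain ⟨h1, h2⟩ := Prod.mk.inj h
      exact Prod.ext (Subtype.ext h1) h2)))
  have h1 := hind.measure_inter_preimage_eq_mul Finset.univ
    (sets := fun q : ↥t × Jx M => {kap q.2}) (fun q _ => measurableSet_singleton _)
  have h2 : (⋂ n ∈ t, Ev X M n) = ⋂ q ∈ (Finset.univ : Finset (↥t × Jx M)),
      (fun ω => count (X ω) (Ag M q.1 q.2)) ⁻¹' {kap q.2} := by
    ext ω
    simp only [Ev, mem_iInter, Finset.mem_univ, true_imp_iff, Prod.forall, Subtype.forall]
  rw [h2, h1]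
  have h3 : ∀ q : ↥t × Jx M, P ((fun ω => count (X ω) (Ag M q.1 q.2)) ⁻¹' {kap q.2})
      = fac lam M q.2 := fun q => prob_fac hX M _ _
  rw [Finset.prod_congr rfl fun q _ => h3 q, Fintype.prod_prod_type]
  simp only [Finset.prod_const, Finset.card_univ, Fintype.card_coe]

theorem prob_Ev (hX : IsPoissonProcess P lam X) (M n : ℕ) :
    P (Ev X M n) = ∏ j : Jx M, fac lam M j := by
  have h := prob_inter hX M {n}
  simpa using h

theorem ae_exists_patch (hlam : 0 < lam) (hX : IsPoissonProcess P lam X) (M : ℕ) :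
    ∀ᵐ ω ∂P, ∃ n, ω ∈ Ev X M n := by
  have hmeas := measurableSet_Ev hX M
  have hind : iIndepSet (Ev X M) P := by
    rw [iIndepSet_iff_meas_biInter hmeas]
    intro t
    rw [prob_inter hX M t]
    exact Finset.prod_congr rfl fun n _ => (prob_Ev hX M n).symm
  have hsum : ∑' n, P (Ev X M n) = ∞ := by
    simp_rw [prob_Ev hX M]
    apply ENNReal.tsum_const_eq_top_of_ne_zero
    exact Finset.prod_ne_zero_iff.2 fun j _ => fac_ne_zero hlam M j
  have h := measure_limsup_eq_one hmeas hind hsum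
  have h2 : limsup (Ev X M) atTop ∈ ae P := (mem_ae_iff_prob_eq_one₀
    (MeasurableSet.measurableSet_limsup hmeas).nullMeasurableSet).2 h
  filter_upwards [h2] with ω hω
  rw [mem_limsup_iff_frequently_mem] at hω
  exact hω.exists

end

end Pool.Agent.Q326.PV
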